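import Mathlib
import Pool.Agent.MP_d802e4_co.Prob
import Pool.Agent.MP_6f70ff_gt.Defs

-- part MP_6f70ff_gt.H18.Basic
section

/-!
Homogeneous geodesic integer metrics, separated sets, nets and chains.
-/

set_option autoImplicit false

namespace Pool.Agent.MP_6f70ff_gt.H18

/-- An integer valued geodesic metric with finite balls and a transitive isometry group. -/
structure Geo (V : Type) where
  d : V → V → ℕ
  refl : ∀ x, d x x = 0
  symm : ∀ x y, d x y = d y x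
  tri : ∀ x y z, d x z ≤ d x y + d y z
  eq0 : ∀ x y, d x y = 0 → x = y
  geo : ∀ x y r, r ≤ d x y → ∃ z, d x z = r ∧ d z y + r = d x y
  fin : ∀ x r, {y | d x y ≤ r}.Finite
  trans : ∀ u v, ∃ g : V ≃ V, (∀ x y, d (g x) (g y) = d x y) ∧ g u = v

namespace Geo

variable {V : Type} (X : Geo V)

/-- closed ball -/
noncomputable def ball (x : V) (r : ℕ) : Finset V := (X.fin x r).toFinset

@[simp] lemma mem_ball {x y : V} {r : ℕ} : y ∈ X.ball x r ↔ X.d x y ≤ r := by
  simp [ball]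

lemma card_ball (x y : V) (r : ℕ) : (X.ball x r).card = (X.ball y r).card := by
  obtain ⟨g, hg, rfl⟩ := X.trans x y
  refine Finset.card_bij (fun v _ => g v) (fun v hv => by simpa [hg] using hv)
    (fun a _ b _ h => g.injective h) (fun w hw => ⟨g.symm w, ?_, by simp⟩)
  rw [mem_ball] at hw ⊢
  rw [← hg]; simpa using hw

/-- `k`-separated sets -/
def Sep (k : ℕ) (N : Set V) : Prop := ∀ u ∈ N, ∀ v ∈ N, u ≠ v → k ≤ X.d u v

/-- `k`-nets -/
def Net (k : ℕ) (N : Set V) : Prop := X.Sep k N ∧ ∀ x, ∃ u ∈ N, X.d x u < k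

variable {X}

lemma Sep.mono {k : ℕ} {N M : Set V} (h : X.Sep k N) (hM : M ⊆ N) : X.Sep k M :=
  fun u hu v hv => h u (hM hu) v (hM hv)

lemma Sep.anti {k l : ℕ} {N : Set V} (h : X.Sep k N) (hl : l ≤ k) : X.Sep l N :=
  fun u hu v hv huv => hl.trans (h u hu v hv huv)

lemma Sep.insert {k : ℕ} {N : Set V} (h : X.Sep k N) {x : V} (hx : ∀ u ∈ N, k ≤ X.d x u) :
    X.Sep k (insert x N) := by
  rintro u (rfl | hu) v (rfl | hv) huv
  · exact absurd rfl huv
  · exact hx v hv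
  · rw [X.symm]; exact hx u hu
  · exact h u hu v hv huv

lemma exists_ext {k : ℕ} (hk : 1 ≤ k) {S Y : Set V} (hS : X.Sep k S) (hSY : S ⊆ Y) :
    ∃ N, S ⊆ N ∧ N ⊆ Y ∧ X.Sep k N ∧ ∀ x ∈ Y, ∃ u ∈ N, X.d x u < k := by
  obtain ⟨N, hSN, hN⟩ := zorn_subset_nonempty {N : Set V | N ⊆ Y ∧ X.Sep k N}
    (fun c hc hch _ => ⟨⋃₀ c, ⟨Set.sUnion_subset fun s hs => (hc hs).1, by
      rintro u ⟨s, hs, hu⟩ v ⟨t, ht, hv⟩ huv
      rcases hch.total hs ht with h | h
      · exact (hc ht).2 u (h hu) v hv huv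
      · exact (hc hs).2 u hu v (h hv) huv⟩, fun s hs => Set.subset_sUnion_of_mem hs⟩) S ⟨hSY, hS⟩
  refine ⟨N, hSN, hN.prop.1, hN.prop.2, fun x hx => ?_⟩
  by_contra hc
  push Not at hc
  have h1 : insert x N ⊆ N :=
    hN.le_of_ge ⟨Set.insert_subset hx hN.prop.1, hN.prop.2.insert hc⟩ (Set.subset_insert _ _)
  have := hc x (h1 (Set.mem_insert _ _))
  rw [X.refl] at this
  omega

lemma exists_net {k : ℕ} (hk : 1 ≤ k) {S : Set V} (hS : X.Sep k S) :
    ∃ N, S ⊆ N ∧ X.Net k N := by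
  obtain ⟨N, h1, -, h2, h3⟩ := exists_ext hk hS (Set.subset_univ S)
  exact ⟨N, h1, h2, fun x => h3 x trivial⟩

lemma exists_sub {k : ℕ} (hk : 1 ≤ k) (Y : Finset V) :
    ∃ N : Finset V, N ⊆ Y ∧ X.Sep k N ∧ ∀ x ∈ Y, ∃ u ∈ N, X.d x u < k := by
  obtain ⟨N, -, h1, h2, h3⟩ := exists_ext (X := X) hk (S := ∅) (Y := Y) (fun u hu => hu.elim)
    (Set.empty_subset _)
  have hf : N.Finite := Y.finite_toSet.subset h1
  refine ⟨hf.toFinset, fun x hx => h1 (by simpa using hx), by simpa using h2, fun x hx => ?_⟩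
  obtain ⟨u, hu, h⟩ := h3 x hx
  exact ⟨u, by simpa using hu, h⟩

variable (X)

lemma exists_geod (x y : V) : ∃ γ : ℕ → V, γ 0 = x ∧ γ (X.d x y) = y ∧
    ∀ a b, a ≤ b → b ≤ X.d x y → X.d (γ a) (γ b) + a = b := by
  have h1 : ∀ u, ∃ z, X.d u z ≤ 1 ∧ X.d z y = X.d u y - 1 := by
    intro u
    by_cases h : X.d u y = 0
    · exact ⟨u, by simp [X.refl], by omega⟩
    · obtain ⟨z, h1, h2⟩ := X.geo u y 1 (by omega)
      exact ⟨z, h1.le, by omega⟩
  choose nx h2 h3 using h1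
  have h4 : ∀ i, X.d (nx^[i] x) y = X.d x y - i := by
    intro i
    induction i with
    | zero => simp
    | succ i ih => rw [Function.iterate_succ_apply', h3, ih]; omega
  have h5 : ∀ a c, X.d (nx^[a] x) (nx^[a + c] x) ≤ c := by
    intro a c
    induction c with
    | zero => simp [X.refl]
    | succ c ih =>
      rw [← add_assoc, Function.iterate_succ_apply']
      have := X.tri (nx^[a] x) (nx^[a + c] x) (nx (nx^[a + c] x))
      have := h2 (nx^[a + c] x)
      omega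
  refine ⟨fun i => nx^[i] x, rfl, X.eq0 _ _ (by simp [h4]), fun a b hab hb => ?_⟩
  obtain ⟨c, rfl⟩ := Nat.exists_eq_add_of_le hab
  have h6 := h5 a c
  have h7 := X.tri (nx^[a] x) (nx^[a + c] x) y
  rw [h4, h4] at h7
  simp only
  omega

/-- chains with `s` steps of length at most `l` inside `N` -/
inductive Ch (N : Set V) (l : ℕ) (u : V) : V → ℕ → Prop
  | refl : u ∈ N → Ch N l u u 0
  | step {v w : V} {s : ℕ} : Ch N l u v s → w ∈ N → X.d v w ≤ l → Ch N l u w (s + 1)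

variable {X}

lemma Ch.left {N : Set V} {l s : ℕ} {u v : V} (h : X.Ch N l u v s) : u ∈ N := by
  induction h with
  | refl h => exact h
  | step _ _ _ ih => exact ih

lemma Ch.right {N : Set V} {l s : ℕ} {u v : V} (h : X.Ch N l u v s) : v ∈ N := by
  cases h with
  | refl h => exact h
  | step _ h _ => exact h

lemma Ch.mono {N M : Set V} {l s : ℕ} {u v : V} (h : X.Ch N l u v s) (hM : N ⊆ M) :
    X.Ch M l u v s := by
  induction h with
  | refl h => exact .refl (hM h)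
  | step _ h1 h2 ih => exact .step ih (hM h1) h2

lemma Ch.trans {N : Set V} {l s t : ℕ} {u v w : V} (h : X.Ch N l u v s) (h' : X.Ch N l v w t) :
    X.Ch N l u w (s + t) := by
  induction h' with
  | refl _ => exact h
  | step _ h1 h2 ih => exact .step ih h1 h2

lemma Ch.single {N : Set V} {l : ℕ} {u v : V} (hu : u ∈ N) (hv : v ∈ N) (h : X.d u v ≤ l) :
    X.Ch N l u v 1 := .step (.refl hu) hv h

lemma Ch.dist_le {N : Set V} {l s : ℕ} {u v : V} (h : X.Ch N l u v s) : X.d u v ≤ s * l := by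
  induction h with
  | refl _ => simp [X.refl]
  | @step v w s _ _ h2 ih =>
    have := X.tri u v w
    rw [Nat.succ_mul]; omega

lemma Ch.split {N : Set V} {l s : ℕ} {u v : V} (h : X.Ch N l u v s) (r : ℕ) (hr : r ≤ s) :
    ∃ w, X.Ch N l u w (s - r) ∧ X.Ch N l w v r := by
  induction h generalizing r with
  | refl h =>
    obtain rfl : r = 0 := by omega
    exact ⟨u, .refl h, .refl h⟩
  | @step v w s h0 h1 h2 ih =>
    cases r with
    | zero => exact ⟨w, .step h0 h1 h2, .refl h1⟩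
    | succ r =>
      obtain ⟨z, h3, h4⟩ := ih r (by omega)
      exact ⟨z, by simpa using h3, .step h4 h1 h2⟩

lemma Ch.last_visit {N : Set V} {l s : ℕ} {u v : V} (h : X.Ch N l u v s) :
    v = u ∨ ∃ w s', X.d u w ≤ l ∧ X.Ch (N \ {u}) l w v s' := by
  induction h with
  | refl _ => exact Or.inl rfl
  | @step v w s _ h1 h2 ih =>
    by_cases hw : w = u
    · exact Or.inl hw
    · right
      rcases ih with rfl | ⟨z, s', h3, h4⟩
      · exact ⟨w, 0, h2, .refl ⟨h1, hw⟩⟩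
      · exact ⟨z, s' + 1, h3, .step h4 ⟨h1, hw⟩ h2⟩

lemma Ch.short {l : ℕ} : ∀ (n : ℕ) (N : Finset V), N.card ≤ n → ∀ {s : ℕ} {u v : V},
    X.Ch N l u v s → ∃ s' ≤ n, X.Ch N l u v s' := by
  classical
  intro n
  induction n with
  | zero =>
    intro N hN s u v h
    have := h.left
    rw [Nat.le_zero, Finset.card_eq_zero] at hN
    simp [hN] at this
  | succ n ih =>
    intro N hN s u v h
    rcases h.last_visit with rfl | ⟨w, s', h1, h2⟩
    · exact ⟨0, by omega, .refl h.left⟩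
    · have hu : u ∈ N := h.left
      obtain ⟨s'', h3, h4⟩ := ih (N.erase u) (by rw [Finset.card_erase_of_mem hu]; omega)
        (s := s') (u := w) (v := v) (by simpa using h2)
      have h5 : X.Ch N l w v s'' := h4.mono (by simp)
      exact ⟨1 + s'', by omega, (Ch.single hu h5.left h1).trans h5⟩

/-- a geodesic is a chain with unit steps inside any set containing the relevant points -/
lemma ch_geod (x y : V) (N : Set V) (hN : ∀ v, X.d x v + X.d v y = X.d x y → v ∈ N) :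
    X.Ch N 1 x y (X.d x y) := by
  obtain ⟨γ, h0, h1, h2⟩ := X.exists_geod x y
  have : ∀ i ≤ X.d x y, X.Ch N 1 x (γ i) i := by
    intro i
    induction i with
    | zero => intro _; rw [h0]; exact .refl (hN x (by simp [X.refl]))
    | succ i ih =>
      intro hi
      refine .step (ih (by omega)) (hN _ ?_) ?_
      · have a1 := h2 0 (i + 1) (by omega) hi
        have a2 := h2 (i + 1) (X.d x y) hi le_rfl
        rw [h0] at a1
        rw [h1] at a2
        omega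
      · have := h2 i (i + 1) (by omega) hi
        omega
  have h3 := this _ le_rfl
  rwa [h1] at h3

variable (X)

/-- the consequence of sub scale invariance that is used -/
def RI : Prop := ∀ C : ℝ, 1 < C → ∃ K : ℕ, ∀ k, K ≤ k → ∀ N, X.Net k N → ∃ h : V → V,
  (∀ u v s, X.Ch N (2 * k) u v s → (X.d (h u) (h v) : ℝ) ≤ C * (s + 3)) ∧
  ∀ u ∈ N, ∀ v ∈ N, ∃ s, X.Ch N (2 * k) u v s ∧ (s : ℝ) ≤ C * (X.d (h u) (h v) + C) + 2

end Geo

end Pool.Agent.MP_6f70ff_gt.H18

end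

-- part MP_6f70ff_gt.H18.Pack
section

/-!
Uniform packing bounds at all large scales.
-/

set_option autoImplicit false

namespace Pool.Agent.MP_6f70ff_gt.H18

namespace Geo

variable {V : Type} (X : Geo V)

/-- packing bound at all scales above `ρ0` -/
def Pk (P ρ0 : ℕ) : Prop := 1 ≤ P ∧ 1 ≤ ρ0 ∧ ∀ ρ, ρ0 ≤ ρ → ∀ (x : V) (S : Finset V),
  (∀ u ∈ S, X.d x u ≤ 2 * ρ) → X.Sep ρ S → S.card ≤ P

variable {X}

lemma level_net (z : V) {k : ℕ} (hk : 1 ≤ k) : ∃ N, X.Net k N ∧ z ∈ N ∧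
    ∀ x, ∃ q, X.d x q < 2 * k ∧ X.Ch N (2 * k) z q (X.d z x / k) := by
  obtain ⟨H, h1, h2, h3, h4⟩ := exists_ext (X := X) hk (S := {z}) (Y := {v | k ∣ X.d z v})
    (by rintro u rfl v rfl h; exact absurd rfl h) (by rintro u rfl; simp [X.refl])
  have hz : z ∈ H := h1 rfl
  have lev : ∀ x j, X.d z x = j * k → ∃ q ∈ H, X.d x q < k ∧ X.d z q = j * k := by
    intro x j hx
    obtain ⟨q, hq, hd⟩ := h4 x ⟨j, by rw [hx, mul_comm]⟩
    refine ⟨q, hq, hd, ?_⟩
    obtain ⟨i, hi⟩ := h2 hq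
    have a1 := X.tri z x q
    have a2 := X.tri z q x
    rw [X.symm q x] at a2
    rw [hi, mul_comm] at *
    have : i = j := by
      rcases lt_trichotomy i j with h | h | h
      · have := Nat.mul_le_mul_right k (show i + 1 ≤ j from h)
        rw [Nat.succ_mul] at this
        nlinarith
      · exact h
      · have := Nat.mul_le_mul_right k (show j + 1 ≤ i from h)
        rw [Nat.succ_mul] at this
        nlinarith
    rw [this, mul_comm]
  have ch : ∀ j, ∀ q ∈ H, X.d z q = j * k → X.Ch H (2 * k) z q j := by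
    intro j
    induction j with
    | zero =>
      intro q _ h
      rw [← X.eq0 z q (by simpa using h)]
      exact .refl hz
    | succ j ih =>
      intro q hq h
      rw [Nat.succ_mul] at h
      obtain ⟨p, p1, p2⟩ := X.geo z q (j * k) (by omega)
      obtain ⟨u, hu, u1, u2⟩ := lev p j p1
      refine .step (ih u hu u2) hq ?_
      have := X.tri u p q
      rw [X.symm u p] at this
      omega
  obtain ⟨N, hHN, hN⟩ := exists_net hk h3
  refine ⟨N, hN, hHN hz, fun x => ?_⟩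
  have e1 := Nat.div_add_mod (X.d z x) k
  have e2 := Nat.mod_lt (X.d z x) (show 0 < k from hk)
  rw [mul_comm] at e1
  obtain ⟨p, p1, p2⟩ := X.geo z x (X.d z x / k * k) (by omega)
  obtain ⟨u, hu, u1, u2⟩ := lev p _ p1
  refine ⟨u, ?_, (ch _ u hu u2).mono hHN⟩
  have := X.tri x p u
  rw [X.symm x p] at this
  omega

lemma RI.pack (h : X.RI) (o : V) : ∃ P ρ0, X.Pk P ρ0 := by
  obtain ⟨K, hK⟩ := h 2 (by norm_num)
  refine ⟨(X.ball o 134).card, 16 * (K + 1), Finset.card_pos.2 ⟨o, by simp [X.refl]⟩, by omega,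
    fun ρ hρ z S hS hsep => ?_⟩
  obtain ⟨k, hk⟩ : ∃ k, k = ρ / 16 := ⟨_, rfl⟩
  obtain ⟨N, hN, hz, hq⟩ := level_net (X := X) z (k := k) (by omega)
  obtain ⟨f, f1, f2⟩ := hK k (by omega) N hN
  choose q q1 q2 using hq
  rw [X.card_ball o (f z)]
  refine Finset.card_le_card_of_injOn (fun x => f (q x)) (fun x hx => ?_) (fun x hx y hy hxy => ?_)
  · have a1 := f1 _ _ _ (q2 x)
    have a2 : X.d z x / k ≤ 64 := by
      apply Nat.div_le_of_le_mul
      have := hS x hx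
      omega
    have a3 : ((X.d z x / k : ℕ) : ℝ) ≤ 64 := by exact_mod_cast a2
    simp only [Finset.mem_coe, mem_ball]
    have : (X.d (f z) (f (q x)) : ℝ) ≤ 134 := by linarith
    exact_mod_cast this
  · by_contra hne
    obtain ⟨s, s1, s2⟩ := f2 _ (q2 x).right _ (q2 y).right
    simp only at hxy
    rw [hxy, X.refl] at s2
    have s3 : (s : ℝ) ≤ 6 := by push_cast at s2; linarith
    have s4 : s ≤ 6 := by exact_mod_cast s3
    have a1 := s1.dist_le
    have a2 := Nat.mul_le_mul_right (2 * k) s4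
    have a3 := hsep x hx y hy hne
    have a4 := X.tri x (q x) y
    have a5 := X.tri (q x) (q y) y
    have a6 := q1 x
    have a7 := q1 y
    rw [X.symm (q y) y] at a5
    omega

lemma Pk.pow {P ρ0 : ℕ} (h : X.Pk P ρ0) (e : ℕ) : ∀ ρ, ρ0 ≤ ρ → ∀ (x : V) (S : Finset V),
    (∀ u ∈ S, X.d x u ≤ 2 ^ e * ρ) → X.Sep ρ S → S.card ≤ P ^ (e + 1) := by
  classical
  induction e with
  | zero =>
    intro ρ hρ x S hS hsep
    simpa using h.2.2 ρ hρ x S (fun u hu => by have := hS u hu; omega) hsep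
  | succ e ih =>
    intro ρ hρ x S hS hsep
    have h1 : ρ ≤ 2 ^ e * ρ := Nat.le_mul_of_pos_left _ (by positivity)
    have h0 := h.2.1
    obtain ⟨T, T1, T2, T3⟩ := exists_sub (X := X) (k := 2 ^ e * ρ) (by omega) S
    have h2 := h.2.2 (2 ^ e * ρ) (by omega) x T (fun u hu => by
      have := hS u (T1 hu); rw [pow_succ] at this; linarith) T2
    have h3 : S ⊆ T.biUnion (fun t => S.filter (fun u => X.d t u ≤ 2 ^ e * ρ)) := by
      intro u hu
      obtain ⟨t, ht, hd⟩ := T3 u hu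
      simp only [Finset.mem_biUnion, Finset.mem_filter]
      exact ⟨t, ht, hu, by rw [X.symm]; omega⟩
    refine (Finset.card_le_card h3).trans ((Finset.card_biUnion_le_card_mul _ _ (P ^ (e + 1))
      fun t _ => ?_).trans ?_)
    · exact ih ρ hρ t _ (fun u hu => (Finset.mem_filter.1 hu).2)
        (hsep.mono (by intro u hu; exact (Finset.mem_filter.1 hu).1))
    · rw [pow_succ P (e + 1), mul_comm]
      exact Nat.mul_le_mul_left _ h2

lemma Pk.vol {P ρ0 : ℕ} (h : X.Pk P ρ0) {a : ℕ} (ha : ρ0 ≤ a) (x : V) :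
    (X.ball x (7 * a)).card ≤ P ^ 4 * (X.ball x a).card := by
  classical
  have h0 := h.2.1
  obtain ⟨T, T1, T2, T3⟩ := exists_sub (X := X) (k := a) (by omega) (X.ball x (7 * a))
  have h2 := h.pow 3 a ha x T (fun u hu => by have := (X.mem_ball).1 (T1 hu); omega) T2
  have h3 : X.ball x (7 * a) ⊆ T.biUnion (fun t => X.ball t a) := by
    intro u hu
    obtain ⟨t, ht, hd⟩ := T3 u hu
    simp only [Finset.mem_biUnion, mem_ball]
    exact ⟨t, ht, by rw [X.symm]; omega⟩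
  refine (Finset.card_le_card h3).trans ((Finset.card_biUnion_le_card_mul _ _ (X.ball x a).card
    fun t _ => (X.card_ball t x a).le).trans ?_)
  exact Nat.mul_le_mul_right _ h2

/-- a chain of net points along a geodesic -/
lemma Net.chain {k : ℕ} {N : Set V} (hN : X.Net k N) {u v : V} (hu : u ∈ N) (hv : v ∈ N)
    (γ : ℕ → V) (h0 : γ 0 = u) (h1 : γ (X.d u v) = v)
    (h2 : ∀ a b, a ≤ b → b ≤ X.d u v → X.d (γ a) (γ b) + a = b) :
    X.Ch {w ∈ N | ∃ i ≤ X.d u v, X.d (γ i) w < k} (2 * k) u v (X.d u v) := by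
  choose ν ν1 ν2 using hN.2
  have fix : ∀ w ∈ N, ν w = w := by
    intro w hw
    by_contra hc
    have := hN.1 w hw (ν w) (ν1 w) (Ne.symm hc)
    have := ν2 w
    omega
  have : ∀ i ≤ X.d u v, X.Ch {w ∈ N | ∃ i ≤ X.d u v, X.d (γ i) w < k} (2 * k) u (ν (γ i)) i := by
    intro i
    induction i with
    | zero =>
      intro hi
      have := ν2 u
      rw [fix u hu] at this
      rw [h0, fix u hu]
      exact .refl ⟨hu, 0, hi, by rwa [h0]⟩
    | succ i ih =>
      intro hi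
      refine .step (ih (by omega)) ⟨ν1 _, i + 1, hi, ν2 _⟩ ?_
      have a1 := h2 i (i + 1) (by omega) hi
      have a2 := ν2 (γ i)
      have a3 := ν2 (γ (i + 1))
      have a4 := X.tri (ν (γ i)) (γ i) (ν (γ (i + 1)))
      have a5 := X.tri (γ i) (γ (i + 1)) (ν (γ (i + 1)))
      rw [X.symm (ν (γ i)) (γ i)] at a4
      omega
  have h3 := this _ le_rfl
  rwa [h1, fix v hv] at h3

lemma Net.conn {k : ℕ} {N : Set V} (hN : X.Net k N) {u v : V} (hu : u ∈ N) (hv : v ∈ N) :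
    ∃ s, X.Ch N (2 * k) u v s := by
  obtain ⟨γ, h0, h1, h2⟩ := X.exists_geod u v
  exact ⟨_, (hN.chain hu hv γ h0 h1 h2).mono fun w hw => hw.1⟩

/-- a short chain of net points -/
lemma Pk.chain {P ρ0 : ℕ} (h : X.Pk P ρ0) {k : ℕ} (hk : ρ0 ≤ k) {N : Set V} (hN : X.Net k N)
    {u v : V} (hu : u ∈ N) (hv : v ∈ N) :
    ∃ s ≤ (X.d u v / k + 1) * P, X.Ch {w ∈ N | X.d v w ≤ X.d u v + k} (2 * k) u v s := by
  classical
  obtain ⟨γ, h0, h1, h2⟩ := X.exists_geod u v
  have h3 := hN.chain hu hv γ h0 h1 h2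
  have hk0 := h.2.1
  let F : Finset V := (Finset.range (X.d u v / k + 1)).biUnion
    (fun j => (X.ball (γ (j * k)) (2 * k)).filter (fun w => w ∈ N ∧ X.d v w ≤ X.d u v + k))
  have hF : F.card ≤ (X.d u v / k + 1) * P := by
    refine (Finset.card_biUnion_le_card_mul _ _ P fun j _ => ?_).trans (by simp)
    exact h.2.2 k hk (γ (j * k)) _ (fun w hw => (X.mem_ball).1 (Finset.mem_filter.1 hw).1)
      (hN.1.mono (by intro w hw; exact (Finset.mem_filter.1 hw).2.1))
  have h4 : X.Ch F (2 * k) u v (X.d u v) := by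
    refine h3.mono ?_
    rintro w ⟨hw, i, hi, hd⟩
    have e1 := Nat.div_add_mod i k
    have e2 := Nat.mod_lt i (show 0 < k by omega)
    rw [mul_comm] at e1
    have a1 := h2 (i / k * k) i (by omega) hi
    have a2 := X.tri (γ (i / k * k)) (γ i) w
    have a3 := h2 i _ hi le_rfl
    have a4 := X.tri v (γ i) w
    rw [h1, X.symm] at a3
    simp only [F, Finset.coe_biUnion, Finset.coe_range, Set.mem_iUnion, Finset.mem_coe,
      Finset.mem_filter, mem_ball, Set.mem_Iio]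
    exact ⟨i / k, Nat.lt_succ_of_le (Nat.div_le_div_right hi), by omega, hw, by omega⟩
  obtain ⟨s, s1, s2⟩ := Ch.short _ F hF h4
  refine ⟨s, s1, s2.mono ?_⟩
  intro w hw
  simp only [F, Finset.coe_biUnion, Set.mem_iUnion, Finset.mem_coe, Finset.mem_filter] at hw
  obtain ⟨j, _, _, hw⟩ := hw
  exact hw

end Geo

end Pool.Agent.MP_6f70ff_gt.H18

end

-- part MP_6f70ff_gt.H18.Rand
section

/-!
Local equivariant events of random labels.
-/

set_option autoImplicit false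

namespace Pool.Agent.MP_6f70ff_gt.H18

open Pool.Agent.MP_d802e4_co

lemma Pr_perm {ι Λ : Type} [Fintype ι] [DecidableEq ι] [Fintype Λ] (p : Λ → ℝ) (e : ι ≃ ι)
    (E : (ι → Λ) → Prop) : Pr p (fun ω => E (ω ∘ e)) = Pr p E := by
  unfold Pr Ex
  rw [← Equiv.sum_comp (Equiv.arrowCongr e.symm (Equiv.refl Λ)) (fun ω => wt p ω * ind (E ω))]
  refine Finset.sum_congr rfl fun ω _ => ?_
  have h1 : (Equiv.arrowCongr e.symm (Equiv.refl Λ)) ω = ω ∘ e := by ext i; simp
  have h2 : wt p (ω ∘ e) = wt p ω := by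
    unfold wt; exact Equiv.prod_comp e (fun i => p (ω i))
  rw [h1, h2]

lemma Pr_not {ι Λ : Type} [Fintype ι] [DecidableEq ι] [Fintype Λ] {p : Λ → ℝ} (hp : IsP p)
    (E : (ι → Λ) → Prop) : Pr p (fun ω => ¬ E ω) = 1 - Pr p E := by
  have := Pr_split (p := p) (fun _ : ι → Λ => True) E
  simpa [Pr_true hp] using this

lemma Pr_disj {ι Λ κ : Type} [Fintype ι] [DecidableEq ι] [Fintype Λ] {p : Λ → ℝ} (hp : IsP p)
    (s : Finset κ) (E : κ → (ι → Λ) → Prop)
    (h : ∀ ω, ∀ i ∈ s, ∀ j ∈ s, E i ω → E j ω → i = j) :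
    ∑ i ∈ s, Pr p (E i) ≤ Pr p (fun ω => ∃ i ∈ s, E i ω) := by
  unfold Pr
  rw [← Ex_sum]
  refine Ex_mono hp fun ω => ?_
  by_cases hc : ∃ i ∈ s, E i ω
  · rw [ind_pos hc]
    obtain ⟨i, hi, hE⟩ := hc
    rw [Finset.sum_eq_single i (fun j hj hji => ind_neg fun hEj => hji (h ω j hj i hi hEj hE))
      (fun hi' => absurd hi hi')]
    exact ind_le_one _
  · rw [ind_neg hc, Finset.sum_eq_zero fun j hj => ind_neg fun hEj => hc ⟨j, hj, hEj⟩]

/-- the uniform weights -/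
noncomputable def unif (Z : ℕ) : Fin Z → ℝ := fun _ => 1 / Z

lemma unif_isP {Z : ℕ} (hZ : 1 ≤ Z) : IsP (unif Z) := by
  refine ⟨fun _ => by unfold unif; positivity, ?_⟩
  have : (Z : ℝ) ≠ 0 := by positivity
  simp [unif, this]

lemma Pr_coord {ι : Type} [Fintype ι] [DecidableEq ι] {Z : ℕ} (hZ : 1 ≤ Z) (i : ι) (a : Fin Z) :
    Pr (unif Z) (fun ω : ι → Fin Z => ω i = a) = 1 / Z := by
  unfold Pr
  rw [Ex_coord (unif_isP hZ) i (fun b => ind (b = a)), Finset.sum_eq_single a]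
  · simp [ind, unif]
  · intro b _ hb; simp [ind, hb]
  · simp

lemma Pr_eq {ι : Type} [Fintype ι] [DecidableEq ι] {Z : ℕ} (hZ : 1 ≤ Z) {i j : ι} (hij : i ≠ j) :
    Pr (unif Z) (fun ω : ι → Fin Z => ω i = ω j) ≤ 1 / Z := by
  have hp := unif_isP hZ
  refine (Pr_mono hp (F := fun ω => ∃ a ∈ Finset.univ, ω i = a ∧ ω j = a)
    (fun ω h => ⟨ω j, by simp, h, rfl⟩)).trans ((Pr_exists hp _ _).trans ?_)
  have : ∀ a : Fin Z, Pr (unif Z) (fun ω : ι → Fin Z => ω i = a ∧ ω j = a) = 1 / Z * (1 / Z) := by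
    intro a
    rw [Pr_and hp (A := {i}) (B := {j}) (fun ω ω' h => by simp only [h i rfl])
      (fun ω ω' h => by simp only [h j rfl]) (by simpa using hij), Pr_coord hZ, Pr_coord hZ]
  have h0 : (Z : ℝ) ≠ 0 := by positivity
  simp only [this, Finset.sum_const, Finset.card_univ, Fintype.card_fin, nsmul_eq_mul]
  apply le_of_eq
  field_simp

namespace Geo

variable {V : Type} (X : Geo V)

/-- an event of the labels near a vertex which is carried along by isometries -/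
def Tr (r : ℕ) (F : (V → ℕ → ℕ) → V → Prop) : Prop :=
  ∀ g : V ≃ V, (∀ x y, X.d (g x) (g y) = X.d x y) → ∀ v L L',
    (∀ w, X.d v w ≤ r → L' (g w) = L w) → F L v → F L' (g v)

variable {X}

lemma Tr.iff {r : ℕ} {F : (V → ℕ → ℕ) → V → Prop} (h : X.Tr r F) (g : V ≃ V)
    (hg : ∀ x y, X.d (g x) (g y) = X.d x y) (v : V) (L L' : V → ℕ → ℕ)
    (hL : ∀ w, X.d v w ≤ r → L' (g w) = L w) : F L v ↔ F L' (g v) := by
  refine ⟨h g hg v L L' hL, fun hF => ?_⟩
  have := h g.symm (fun x y => by rw [← hg]; simp) (g v) L' L (fun w hw => by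
    rw [← hL (g.symm w) (by rw [← hg]; simpa using hw)]; simp) hF
  simpa using this

lemma Tr.mono {r r' : ℕ} {F : (V → ℕ → ℕ) → V → Prop} (h : X.Tr r F) (hr : r ≤ r') :
    X.Tr r' F := fun g hg v L L' hL => h g hg v L L' fun w hw => hL w (hw.trans hr)

lemma Tr.not {r : ℕ} {F : (V → ℕ → ℕ) → V → Prop} (h : X.Tr r F) :
    X.Tr r (fun L v => ¬ F L v) := fun g hg v L L' hL h1 h2 => h1 ((h.iff g hg v L L' hL).2 h2)

lemma Tr.and {r : ℕ} {F G : (V → ℕ → ℕ) → V → Prop} (h : X.Tr r F) (h' : X.Tr r G) :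
    X.Tr r (fun L v => F L v ∧ G L v) :=
  fun g hg v L L' hL h1 => ⟨h g hg v L L' hL h1.1, h' g hg v L L' hL h1.2⟩

lemma Tr.or {r : ℕ} {F G : (V → ℕ → ℕ) → V → Prop} (h : X.Tr r F) (h' : X.Tr r G) :
    X.Tr r (fun L v => F L v ∨ G L v) :=
  fun g hg v L L' hL h1 => h1.imp (h g hg v L L' hL) (h' g hg v L L' hL)

lemma Tr.near {r t : ℕ} {F : (V → ℕ → ℕ) → V → Prop} (h : X.Tr r F) (g : V ≃ V)
    (hg : ∀ x y, X.d (g x) (g y) = X.d x y) (v : V) (L L' : V → ℕ → ℕ)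
    (hL : ∀ w, X.d v w ≤ t + r → L' (g w) = L w) (c : V) (hc : X.d v c ≤ t) :
    F L c ↔ F L' (g c) :=
  h.iff g hg c L L' fun w hw => hL w (by have := X.tri v c w; omega)

lemma Tr.ex {r : ℕ} {F : (V → ℕ → ℕ) → V → Prop} (h : X.Tr r F) (t : ℕ) :
    X.Tr (t + r) (fun L v => ∃ c, X.d v c ≤ t ∧ F L c) := by
  rintro g hg v L L' hL ⟨c, h1, h2⟩
  exact ⟨g c, by rwa [hg], (h.near g hg v L L' hL c h1).1 h2⟩

variable (X)

/-- no point of `N` is closer than `β` -/
def Deep (β : ℕ) (N : Set V) (v : V) : Prop := ∀ u ∈ N, β ≤ X.d v u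

variable {X}

lemma Tr.deep {r : ℕ} {N : (V → ℕ → ℕ) → Set V} (h : X.Tr r (fun L v => v ∈ N L)) (β : ℕ) :
    X.Tr (β + r) (fun L v => X.Deep β (N L) v) := by
  intro g hg v L L' hL h1 u hu
  obtain ⟨u, rfl⟩ := g.surjective u
  rw [hg]
  by_contra hc
  exact hc (h1 u ((h.near g hg v L L' hL u (by omega)).2 hu))

variable (X) (o : V) (R S Z : ℕ)

/-- the labels read off a point of the finite probability space -/
noncomputable def ext (ω : (X.ball o R) × Fin S → Fin Z) (v : V) (s : ℕ) : ℕ :=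
  if h : X.d o v ≤ R ∧ s < S then ω (⟨v, X.mem_ball.2 h.1⟩, ⟨s, h.2⟩) else 0

variable [DecidableEq V]

/-- probability of an event of the labels -/
noncomputable def P (E : (V → ℕ → ℕ) → Prop) : ℝ :=
  Pr (unif Z) (fun ω : (X.ball o R) × Fin S → Fin Z => E (X.ext o R S Z ω))

variable {X o R S Z}

lemma P_reindex (g : V ≃ V) (B : Finset V) (h1 : ∀ w ∈ B, X.d o w ≤ R)
    (h2 : ∀ w ∈ B, X.d o (g w) ≤ R) {E E' : (V → ℕ → ℕ) → Prop}
    (h : ∀ L L', (∀ w ∈ B, L' (g w) = L w) → (E L ↔ E' L')) :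
    X.P o R S Z E = X.P o R S Z E' := by
  obtain ⟨σ, hσ⟩ := Equiv.Perm.exists_extending_pair (α := B) (β := X.ball o R)
    (f := fun w => ⟨w, X.mem_ball.2 (h1 w w.2)⟩) (g := fun w => ⟨g w, X.mem_ball.2 (h2 w w.2)⟩)
    (fun a b hab => Subtype.ext (by simpa using hab))
    (fun a b hab => Subtype.ext (by simpa using hab))
  unfold P
  rw [← Pr_perm _ (Equiv.prodCongr σ (Equiv.refl (Fin S)))]
  refine Pr_congr fun ω => h _ _ fun w hw => ?_
  funext s
  unfold ext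
  by_cases hs : s < S
  · rw [dif_pos ⟨h2 w hw, hs⟩, dif_pos ⟨h1 w hw, hs⟩]
    simp only [Function.comp, Equiv.prodCongr_apply, Prod.map, Equiv.refl_apply]
    rw [hσ ⟨w, hw⟩]
  · simp [hs]

lemma Tr.stat {r : ℕ} {F : (V → ℕ → ℕ) → V → Prop} (h : X.Tr r F) {y y' : V}
    (hy : X.d o y + r ≤ R) (hy' : X.d o y' + r ≤ R) :
    X.P o R S Z (fun L => F L y) = X.P o R S Z (fun L => F L y') := by
  obtain ⟨g, hg, rfl⟩ := X.trans y y'
  refine P_reindex g (X.ball y r) (fun w hw => ?_) (fun w hw => ?_)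
    (fun L L' hL => h.iff g hg y L L' fun w hw => hL w (X.mem_ball.2 hw))
  · have := X.tri o y w
    have := X.mem_ball.1 hw
    omega
  · have := X.tri o (g y) (g w)
    have := X.mem_ball.1 hw
    rw [hg] at *
    omega

omit [DecidableEq V] in
lemma Tr.dep {r : ℕ} {F : (V → ℕ → ℕ) → V → Prop} (h : X.Tr r F) (y : V) :
    Dep {i : (X.ball o R) × Fin S | X.d y i.1 ≤ r}
      (fun ω : (X.ball o R) × Fin S → Fin Z => F (X.ext o R S Z ω) y) := by
  intro ω ω' hω
  apply propext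
  refine h.iff (Equiv.refl V) (fun _ _ => rfl) y _ _ fun w hw => ?_
  funext s
  simp only [Equiv.refl_apply, ext]
  split_ifs with hc
  · rw [hω _ hw]
  · rfl

variable (X)

/-- at stage `s` the labels near `y` are distinct and the smallest one is close to `y` -/
def Good (a s : ℕ) (L : V → ℕ → ℕ) (y : V) : Prop :=
  Set.InjOn (fun w => L w s) (X.ball y (7 * a)) ∧
    ∃ c ∈ X.ball y a, ∀ w ∈ X.ball y (7 * a), L c s ≤ L w s

variable {X}

omit [DecidableEq V] in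
lemma tr_good (a s : ℕ) : X.Tr (7 * a) (X.Good a s) := by
  rintro g hg v L L' hL ⟨h1, c, hc, h2⟩
  simp only [mem_ball] at hc h2
  refine ⟨fun x hx y hy hxy => ?_, g c, by simpa [hg] using hc, fun w hw => ?_⟩
  · obtain ⟨x, rfl⟩ := g.surjective x
    obtain ⟨y, rfl⟩ := g.surjective y
    simp only [Finset.mem_coe, mem_ball, hg] at hx hy
    simp only [hL x hx, hL y hy] at hxy
    rw [h1 (by simpa using hx) (by simpa using hy) hxy]
  · obtain ⟨w, rfl⟩ := g.surjective w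
    simp only [mem_ball, hg] at hw
    rw [hL w hw, hL c (by omega)]
    exact h2 w hw

omit [DecidableEq V] in
lemma dep_good (a s : ℕ) (y : V) : Dep {i : (X.ball o R) × Fin S | (i.2 : ℕ) = s}
    (fun ω : (X.ball o R) × Fin S → Fin Z => ¬ X.Good a s (X.ext o R S Z ω) y) := by
  intro ω ω' hω
  have : ∀ w, X.ext o R S Z ω w s = X.ext o R S Z ω' w s := by
    intro w
    simp only [ext]
    split_ifs with hc
    · rw [hω _ rfl]
    · rfl
  simp only [Good, this]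

lemma P_inj {s : ℕ} (hs : s < S) (B : Finset V) (hB : ∀ w ∈ B, X.d o w ≤ R)
    (hZ1 : 1 ≤ Z) (hZ : 2 * B.card ^ 2 ≤ Z) :
    1 / 2 ≤ X.P o R S Z (fun L => Set.InjOn (fun w => L w s) B) := by
  have hp := unif_isP hZ1
  have h1 : X.P o R S Z (fun L => ¬ Set.InjOn (fun w => L w s) B) ≤ 1 / 2 := by
    refine (Pr_mono hp (F := fun ω => ∃ q ∈ B.offDiag,
      X.ext o R S Z ω q.1 s = X.ext o R S Z ω q.2 s) (fun ω h => ?_)).trans
      ((Pr_exists hp _ _).trans ?_)
    · by_contra hc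
      apply h
      intro x hx y hy hxy
      by_contra hne
      exact hc ⟨(x, y), Finset.mem_offDiag.2 ⟨hx, hy, hne⟩, hxy⟩
    · refine (Finset.sum_le_card_nsmul _ _ (1 / (Z : ℝ)) fun q hq => ?_).trans ?_
      · obtain ⟨a1, a2, a3⟩ := Finset.mem_offDiag.1 hq
        refine le_trans (Pr_mono hp fun ω h => ?_) (Pr_eq hZ1
          (i := ((⟨q.1, X.mem_ball.2 (hB _ a1)⟩ : X.ball o R), (⟨s, hs⟩ : Fin S)))
          (j := ((⟨q.2, X.mem_ball.2 (hB _ a2)⟩ : X.ball o R), (⟨s, hs⟩ : Fin S)))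
          (by simpa using a3))
        unfold ext at h
        rw [dif_pos ⟨hB _ a1, hs⟩, dif_pos ⟨hB _ a2, hs⟩] at h
        exact Fin.ext h
      · have a1 : B.offDiag.card ≤ B.card ^ 2 := by rw [Finset.offDiag_card, sq]; omega
        have a2 : (2 : ℝ) * B.offDiag.card ≤ Z := by exact_mod_cast (by omega)
        have a3 : (0 : ℝ) < Z := by positivity
        rw [nsmul_eq_mul, mul_one_div, div_le_iff₀ a3]
        linarith
  unfold P at h1 ⊢
  rw [Pr_not hp] at h1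
  linarith

lemma P_good {P ρ0 a s : ℕ} (hP : X.Pk P ρ0) (ha : ρ0 ≤ a) (hs : s < S) {y : V}
    (hy : X.d o y + 7 * a ≤ R) (hZ1 : 1 ≤ Z) (hZ : 2 * (X.ball o (7 * a)).card ^ 2 ≤ Z) :
    1 / (2 * (P : ℝ) ^ 4) ≤ X.P o R S Z (fun L => X.Good a s L y) := by
  have hp := unif_isP hZ1
  set B := X.ball y (7 * a) with hBd
  have hB : ∀ w ∈ B, X.d o w ≤ R := fun w hw => by
    have := X.tri o y w
    have := X.mem_ball.1 hw
    omega
  have hy0 : y ∈ B := by simp [hBd, X.refl]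
  have h1 := P_inj (X := X) (o := o) (R := R) (Z := Z) hs B hB hZ1 (by rwa [hBd, X.card_ball y o])
  let E : V → (V → ℕ → ℕ) → Prop := fun c L =>
    Set.InjOn (fun w => L w s) B ∧ ∀ w ∈ B, L c s ≤ L w s
  have h2 : ∀ c ∈ B, X.P o R S Z (E c) = X.P o R S Z (E y) := by
    intro c hc
    have hsw : ∀ w ∈ B, Equiv.swap c y w ∈ B := fun w hw => by
      rw [Equiv.swap_apply_def]; split_ifs <;> assumption
    have key : ∀ (c y : V) (L L' : V → ℕ → ℕ), c ∈ B → (∀ w ∈ B, Equiv.swap c y w ∈ B) →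
        (∀ w ∈ B, L' (Equiv.swap c y w) = L w) → E c L → E y L' := by
      rintro c y L L' hc hsw hL ⟨e1, e2⟩
      have hL' : ∀ w ∈ B, L' w = L (Equiv.swap c y w) := fun w hw => by
        rw [← hL _ (hsw w hw)]; simp
      refine ⟨fun u hu v hv huv => ?_, fun w hw => ?_⟩
      · simp only [hL' u hu, hL' v hv] at huv
        exact (Equiv.swap c y).injective (e1 (hsw u hu) (hsw v hv) huv)
      · have := hL c hc
        rw [Equiv.swap_apply_left] at this
        rw [hL' w hw, this]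
        exact e2 _ (hsw w hw)
    refine P_reindex (Equiv.swap c y) B hB (fun w hw => hB _ (hsw w hw)) fun L L' hL =>
      ⟨key c y L L' hc hsw hL, key y c L' L hy0 (by rwa [Equiv.swap_comm]) fun w hw => ?_⟩
    rw [Equiv.swap_comm, ← hL _ (hsw w hw)]; simp
  have h3 : 1 / 2 ≤ (B.card : ℝ) * X.P o R S Z (E y) := by
    refine h1.trans ((Pr_mono hp (F := fun ω => ∃ c ∈ B, E c (X.ext o R S Z ω)) fun ω h => ?_).trans
      ((Pr_exists hp _ _).trans ?_))
    · obtain ⟨c, hc, hm⟩ := Finset.exists_min_image B (fun w => X.ext o R S Z ω w s) ⟨y, hy0⟩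
      exact ⟨c, hc, h, hm⟩
    · change ∑ c ∈ B, X.P o R S Z (E c) ≤ _
      rw [Finset.sum_congr rfl (g := fun _ => X.P o R S Z (E y)) (fun c hc => h2 c hc)]
      simp
  have hsub : ∀ c ∈ X.ball y a, c ∈ B := fun c hc => by
    simp only [hBd, mem_ball] at hc ⊢; omega
  have h4 : ((X.ball y a).card : ℝ) * X.P o R S Z (E y) ≤
      X.P o R S Z (fun L => X.Good a s L y) := by
    refine le_trans ?_ ((Pr_disj hp (X.ball y a) (fun c ω => E c (X.ext o R S Z ω))
      fun ω i hi j hj e1 e2 => ?_).trans (Pr_mono hp ?_))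
    · change _ ≤ ∑ c ∈ X.ball y a, X.P o R S Z (E c)
      rw [Finset.sum_congr rfl (g := fun _ => X.P o R S Z (E y)) (fun c hc => h2 c (hsub c hc))]
      simp
    · exact e1.1 (hsub i hi) (hsub j hj) (le_antisymm (e1.2 j (hsub j hj)) (e2.2 i (hsub i hi)))
    · rintro ω ⟨c, hc, e1, e2⟩
      exact ⟨e1, c, hc, e2⟩
  have h5 : (B.card : ℝ) ≤ (P : ℝ) ^ 4 * (X.ball y a).card := by exact_mod_cast hP.vol ha y
  have h6 : 0 ≤ X.P o R S Z (E y) := Pr_nonneg hp _
  have h7 : (0 : ℝ) < (P : ℝ) ^ 4 := by have := hP.1; positivity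
  rw [div_le_iff₀ (by positivity)]
  nlinarith [mul_le_mul_of_nonneg_right h5 h6, mul_le_mul_of_nonneg_left h4 h7.le]

end Geo

end Pool.Agent.MP_6f70ff_gt.H18

end

-- part MP_6f70ff_gt.H18.Slack
section

/-!
Nets whose separation exceeds the covering radius by a definite fraction of the scale.
-/

set_option autoImplicit false

namespace Pool.Agent.MP_6f70ff_gt.H18

open Pool.Agent.MP_d802e4_co

namespace Geo

variable {V : Type} (X : Geo V)

/-- active centres -/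
def Act (a s : ℕ) (L : V → ℕ → ℕ) (c : V) : Prop :=
  ∀ w, X.d c w ≤ 6 * a → w ≠ c → L c s < L w s

/-- the points inserted at stage `s` -/
def New (a β s : ℕ) (N : Set V) (L : V → ℕ → ℕ) : Set V :=
  {v | ∃ c, X.Act a s L c ∧ X.d c v ≤ 2 * a ∧ X.Deep β N v ∧
    ∀ w, X.d c w ≤ 2 * a → X.Deep β N w → w ≠ v → L v s < L w s}

open Classical in
/-- the part of a set inside a ball -/
noncomputable def cut (N : Set V) (y : V) (r : ℕ) : Finset V := (X.ball y r).filter (· ∈ N)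

lemma mem_cut {N : Set V} {y u : V} {r : ℕ} : u ∈ X.cut N y r ↔ X.d y u ≤ r ∧ u ∈ N := by
  simp [cut]

variable {X}

lemma tr_new {a β s r : ℕ} {N : (V → ℕ → ℕ) → Set V} (h : X.Tr r (fun L v => v ∈ N L))
    (hβ : β ≤ 2 * a) : X.Tr (8 * a + r) (fun L v => v ∈ X.New a β s (N L) L) := by
  rintro g hg v L L' hL ⟨c, h1, h2, h3, h4⟩
  have hd : ∀ w, X.d v w ≤ 4 * a → (X.Deep β (N L) w ↔ X.Deep β (N L') (g w)) := fun w hw =>
    (h.deep β).near (t := 4 * a) g hg v L L' (fun w hw => hL w (by omega)) w hw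
  have h5 : X.d v c ≤ 2 * a := by rwa [X.symm]
  have h0 := X.refl v
  refine ⟨g c, fun w hw hne => ?_, by rwa [hg], (hd v (by omega)).1 h3, fun w hw hD hne => ?_⟩
  · obtain ⟨w, rfl⟩ := g.surjective w
    rw [hg] at hw
    have := X.tri v c w
    rw [hL c (by omega), hL w (by omega)]
    exact h1 w hw fun e => hne (by rw [e])
  · obtain ⟨w, rfl⟩ := g.surjective w
    rw [hg] at hw
    have := X.tri v c w
    rw [hL v (by omega), hL w (by omega)]
    exact h4 w hw ((hd w (by omega)).2 hD) fun e => hne (by rw [e])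

lemma sep_new {a β s : ℕ} {N : Set V} (L : V → ℕ → ℕ) (h : X.Sep β N) (hβ : β ≤ 2 * a) :
    X.Sep β (N ∪ X.New a β s N L) := by
  rintro u (hu | ⟨c, c1, c2, c3, c4⟩) v (hv | ⟨e, e1, e2, e3, e4⟩) huv
  · exact h u hu v hv huv
  · rw [X.symm]; exact e3 u hu
  · exact c3 v hv
  · by_cases hce : c = e
    · subst hce
      have := c4 v e2 e3 huv.symm
      have := e4 u c2 c3 huv
      omega
    · by_contra hc
      have a1 := X.tri c u e
      have a2 := X.tri u v e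
      rw [X.symm v e] at a2
      have := c1 e (by omega) (Ne.symm hce)
      have := e1 c (by rw [X.symm]; omega) hce
      omega

lemma good_new {a β s : ℕ} {N : Set V} {L : V → ℕ → ℕ} {y : V} (h : X.Good a s L y)
    (hβ : 1 ≤ β) {v : V} (hv : X.d y v ≤ a) (hD : X.Deep β N v) :
    ∃ u ∈ X.New a β s N L, X.d y u ≤ 3 * a ∧ u ∉ N := by
  classical
  obtain ⟨h1, c, hc, h2⟩ := h
  simp only [mem_ball] at hc h2
  have hin : ∀ w, X.d c w ≤ 6 * a → X.d y w ≤ 7 * a := fun w hw => by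
    have := X.tri y c w; omega
  obtain ⟨u, hu, hm⟩ := Finset.exists_min_image ((X.ball c (2 * a)).filter (X.Deep β N))
    (fun w => L w s) ⟨v, by
      have := X.tri c y v
      rw [X.symm c y] at this
      simp only [Finset.mem_filter, mem_ball]
      exact ⟨by omega, hD⟩⟩
  simp only [Finset.mem_filter, mem_ball] at hu hm
  refine ⟨u, ⟨c, fun w hw hne => ?_, hu.1, hu.2, fun w hw hD hne => ?_⟩, ?_, fun hN => ?_⟩
  · refine lt_of_le_of_ne (h2 w (hin w hw)) fun e => hne (h1 ?_ ?_ e).symm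
    · simp only [Finset.mem_coe, mem_ball]; omega
    · simpa using hin w hw
  · refine lt_of_le_of_ne (hm w ⟨hw, hD⟩) fun e => hne (h1 ?_ ?_ e).symm
    · simpa using hin u (by omega)
    · simpa using hin w (by omega)
  · have := X.tri y c u; omega
  · have := hu.2 u hN
    rw [X.refl] at this
    omega

open Classical in
lemma stages {T g S a : ℕ} (hT : 1 ≤ T) (hg : 1 ≤ g) (ha : a = T ^ S * g) (o : V) (R Z : ℕ)
    (hZ : 1 ≤ Z) : ∀ s ≤ S, ∃ (N : (V → ℕ → ℕ) → Set V) (lo : ℕ)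
      (Bad : (V → ℕ → ℕ) → V → Prop),
    X.Tr (8 * a * s) (fun L v => v ∈ N L) ∧ X.Tr (8 * a * s) Bad ∧
    X.P o R S Z (fun L => Bad L o) ≤ s / T ∧ a ≤ lo ∧ lo + T ^ (S - s) * g ≤ 2 * a ∧
    (∀ L, X.Sep (lo + T ^ (S - s) * g) (N L)) ∧
    ∀ L y, ¬ Bad L y → (∀ v, X.d y v ≤ a → ¬ X.Deep lo (N L) v) ∨
      ((Finset.range s).filter (fun i => X.Good a i L y)).card ≤
        (X.cut (N L) y (3 * a)).card := by
  have hp := unif_isP hZ
  have ha1 : 1 ≤ a := by rw [ha]; exact Nat.mul_pos (by positivity) hg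
  intro s
  induction s with
  | zero =>
    intro _
    refine ⟨fun _ => ∅, a, fun _ _ => False, fun _ _ _ _ _ _ h => h.elim,
      fun _ _ _ _ _ _ h => h, ?_, le_rfl, by simp [← ha, two_mul], fun L u hu => hu.elim,
      fun L y _ => Or.inr (by simp)⟩
    unfold P
    simp [Pr_false]
  | succ s ih =>
    intro hs
    obtain ⟨N, lo, Bad, h1, h2, h3, h4, h5, h6, h7⟩ := ih (by omega)
    obtain ⟨w, hw⟩ : ∃ w, w = T ^ (S - (s + 1)) * g := ⟨_, rfl⟩
    have hw' : T ^ (S - s) * g = T * w := by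
      rw [hw, show S - s = S - (s + 1) + 1 by omega, pow_succ]; ring
    rw [hw'] at h5 h6
    let A : ℕ → (V → ℕ → ℕ) → V → Prop := fun j L y =>
      ∃ v, X.d y v ≤ a ∧ X.Deep (lo + j * w) (N L) v
    have hA : ∀ j L y, A (j + 1) L y → A j L y := by
      rintro j L y ⟨v, v1, v2⟩
      exact ⟨v, v1, fun u hu => le_trans (by rw [Nat.succ_mul]; omega) (v2 u hu)⟩
    obtain ⟨j, hj, hJ⟩ : ∃ j ∈ Finset.range T, X.P o R S Z (fun L => A j L o) -
        X.P o R S Z (fun L => A (j + 1) L o) ≤ 1 / (T : ℝ) := by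
      apply Finset.exists_le_of_sum_le ⟨0, by simp; omega⟩
      rw [Finset.sum_range_sub' (fun j => X.P o R S Z (fun L => A j L o))]
      have a1 : X.P o R S Z (fun L => A 0 L o) ≤ 1 := Pr_le_one hp _
      have a2 : 0 ≤ X.P o R S Z (fun L => A T L o) := Pr_nonneg hp _
      have a3 : (T : ℝ) ≠ 0 := by positivity
      simp only [Finset.sum_const, Finset.card_range, nsmul_eq_mul, mul_one_div, div_self a3]
      linarith
    have hj' : (j + 1) * w ≤ T * w := Nat.mul_le_mul_right _ (Finset.mem_range.1 hj)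
    have hj2 : (j + 1) * w = j * w + w := Nat.succ_mul _ _
    have trA : ∀ i, i * w ≤ T * w → X.Tr (8 * a * (s + 1)) (A i) := fun i hi =>
      ((h1.deep (lo + i * w)).ex a).mono (by rw [Nat.mul_succ]; omega)
    refine ⟨fun L => N L ∪ X.New a (lo + (j + 1) * w) s (N L) L, lo + j * w,
      fun L y => Bad L y ∨ (A j L y ∧ ¬ A (j + 1) L y), ?_, ?_, ?_, by omega, by omega,
      fun L => ?_, fun L y hB => ?_⟩
    · exact (h1.mono (by rw [Nat.mul_succ]; omega)).or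
        ((tr_new h1 (by omega)).mono (by rw [Nat.mul_succ]; omega))
    · exact (h2.mono (by rw [Nat.mul_succ]; omega)).or ((trA j (by omega)).and (trA _ hj').not)
    · refine (Pr_or hp _ _).trans ?_
      rw [Pr_split, Pr_congr (E := fun ω => A (j + 1) (X.ext o R S Z ω) o ∧ A j _ o)
        (F := fun ω => A (j + 1) (X.ext o R S Z ω) o)
        (fun ω => ⟨fun h => h.1, fun h => ⟨h, hA _ _ _ h⟩⟩)]
      push_cast
      rw [add_div]
      exact add_le_add h3 hJ
    · rw [← hw, add_assoc, ← hj2]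
      exact sep_new L ((h6 L).anti (by omega)) (by omega)
    · push Not at hB
      by_cases hc : A j L y
      swap
      · left
        intro v hv hD
        exact hc ⟨v, hv, fun u hu => hD u (Or.inl hu)⟩
      right
      have hc' := hB.2 hc
      have hsub : X.cut (N L) y (3 * a) ⊆
          X.cut (N L ∪ X.New a (lo + (j + 1) * w) s (N L) L) y (3 * a) := by
        intro u hu
        simp only [mem_cut] at hu ⊢
        exact ⟨hu.1, Or.inl hu.2⟩
      rcases h7 L y hB.1 with h8 | h8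
      · obtain ⟨v, v1, v2⟩ := hc
        exact absurd (fun u hu => le_trans (by omega) (v2 u hu)) (h8 v v1)
      · rw [Finset.range_add_one, Finset.filter_insert]
        split_ifs with hG
        · obtain ⟨v, v1, v2⟩ := hc'
          obtain ⟨u, u1, u2, u3⟩ := good_new hG (by omega) v1 v2
          refine (Finset.card_insert_le _ _).trans (le_trans (Nat.succ_le_succ h8) ?_)
          apply Finset.card_lt_card
          refine ⟨hsub, fun hh => u3 ?_⟩
          exact (X.mem_cut.1 (hh (X.mem_cut.2 ⟨u2, Or.inr u1⟩))).2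
        · exact h8.trans (Finset.card_le_card hsub)

lemma exists_exp (P : ℕ) (c : ℝ) (hc : 0 ≤ c) {r : ℝ} (h0 : 0 ≤ r) (h1 : r < 1) :
    ∃ e : ℕ, c * (P : ℝ) ^ e * r ^ (2 ^ e) ≤ 1 := by
  have h2 := (tendsto_pow_const_mul_const_pow_of_abs_lt_one P (r := r)
    (by rwa [abs_of_nonneg h0])).comp
    (tendsto_pow_atTop_atTop_of_one_lt (show 1 < 2 by norm_num))
  have h3 := h2.const_mul c
  rw [mul_zero] at h3
  obtain ⟨e, he⟩ := (h3.eventually (gt_mem_nhds (show (0 : ℝ) < 1 by norm_num))).exists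
  refine ⟨e, le_trans ?_ he.le⟩
  have h4 : (P : ℝ) ^ e ≤ ((2 ^ e : ℕ) : ℝ) ^ P := by
    have : P ^ e ≤ (2 ^ e) ^ P := by
      rw [← pow_mul, mul_comm, pow_mul]
      exact Nat.pow_le_pow_left Nat.lt_two_pow_self.le _
    exact_mod_cast this
  simp only [Function.comp]
  rw [mul_assoc]
  exact mul_le_mul_of_nonneg_left (mul_le_mul_of_nonneg_right h4 (by positivity)) hc

lemma Pk.slack {P ρ0 : ℕ} (hP : X.Pk P ρ0) : ∃ T0, 1 ≤ T0 ∧ ∀ g, ρ0 ≤ g → ∀ (o : V) (ρ : ℕ),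
    ∃ lo N, T0 * g ≤ lo ∧ lo + g ≤ 2 * (T0 * g) ∧ X.Sep (lo + g) N ∧
      ∀ x, X.d o x ≤ ρ → ∃ u ∈ N, X.d x u < lo := by
  classical
  have hP1 := hP.1
  have hρ1 := hP.2.1
  obtain ⟨B, hB⟩ : ∃ B, B = P ^ 3 + 1 := ⟨_, rfl⟩
  have hπ0 : (0 : ℝ) < 1 / (2 * (P : ℝ) ^ 4) := by positivity
  have hπ1 : 1 / (2 * (P : ℝ) ^ 4) ≤ 1 := by
    have : (1 : ℝ) ≤ (P : ℝ) ^ 4 := one_le_pow₀ (by exact_mod_cast hP1)
    rw [div_le_one (by positivity)]; linarith
  obtain ⟨e, he⟩ := exists_exp P (8 * B * (P : ℝ) ^ (B + 5)) (by positivity)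
    (r := 1 - 1 / (2 * (P : ℝ) ^ 4)) (by linarith) (by linarith)
  obtain ⟨n, hn⟩ : ∃ n, n = 2 ^ e := ⟨_, rfl⟩
  obtain ⟨S, hS⟩ : ∃ S, S = B * n := ⟨_, rfl⟩
  obtain ⟨D, hD⟩ : ∃ D, D = P ^ (e + B + 4 + 1) := ⟨_, rfl⟩
  obtain ⟨T, hT⟩ : ∃ T, T = 8 * D * S := ⟨_, rfl⟩
  have hS1 : 1 ≤ S := by rw [hS, hB, hn]; exact Nat.mul_pos (by omega) (by positivity)
  have hD1 : 1 ≤ D := by rw [hD]; exact Nat.one_le_pow _ _ hP1
  have hT1 : 1 ≤ T := by rw [hT]; exact Nat.mul_pos (by omega) hS1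
  refine ⟨T ^ S, Nat.one_le_pow _ _ hT1, fun g hg o ρ => ?_⟩
  obtain ⟨a, ha⟩ : ∃ a, a = T ^ S * g := ⟨_, rfl⟩
  have hga : g ≤ a := by rw [ha]; exact Nat.le_mul_of_pos_left _ (Nat.one_le_pow _ _ hT1)
  obtain ⟨Z, hZ⟩ : ∃ Z, Z = 2 * (X.ball o (7 * a)).card ^ 2 + 1 := ⟨_, rfl⟩
  have hp := unif_isP (Z := Z) (by omega)
  obtain ⟨r, hr⟩ : ∃ r, r = 8 * a * S := ⟨_, rfl⟩
  have hra : 8 * a ≤ r := by rw [hr]; exact Nat.le_mul_of_pos_right _ hS1
  obtain ⟨N, lo, Bad, h1, h2, h3, h4, h5, h6, h7⟩ :=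
    stages (X := X) hT1 (by omega) ha o (ρ + r) Z (by omega) S le_rfl
  simp only [Nat.sub_self, pow_zero, one_mul] at h5 h6
  rw [← hr] at h1 h2
  let Bad2 : (V → ℕ → ℕ) → V → Prop := fun L y =>
    ∃ j ∈ Finset.range B, ∀ i ∈ Finset.range n, ¬ X.Good a (j * n + i) L y
  have t2 : X.Tr r Bad2 := by
    rintro g hg v L L' hL ⟨j, hj, hG⟩
    exact ⟨j, hj, fun i hi => ((tr_good a _).mono (by omega)).not g hg v L L' hL (hG i hi)⟩
  have p2 : X.P o (ρ + r) S Z (fun L => Bad2 L o) ≤ B * (1 - 1 / (2 * (P : ℝ) ^ 4)) ^ n := by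
    refine (Pr_exists hp _ _).trans ((Finset.sum_le_card_nsmul _ _
      ((1 - 1 / (2 * (P : ℝ) ^ 4)) ^ n) fun j hj => ?_).trans (by simp))
    rw [Pr_forall hp (Finset.range n) _ _ (fun i _ => dep_good a (j * n + i) o)
      (fun i _ i' _ hne => by
        rw [Set.disjoint_left]; intro x hx hx'
        simp only [Set.mem_ofPred_eq] at hx hx'; omega)]
    refine (Finset.prod_le_prod (g := fun _ => 1 - 1 / (2 * (P : ℝ) ^ 4))
      (fun i _ => Pr_nonneg hp _) fun i hi => ?_).trans (by simp)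
    rw [Pr_not hp]
    have a1 : j * n + i < S := by
      have := Nat.mul_le_mul_right n (show j + 1 ≤ B from Finset.mem_range.1 hj)
      have := Finset.mem_range.1 hi
      rw [Nat.succ_mul] at *
      omega
    have := P_good (o := o) (y := o) (R := ρ + r) (Z := Z) hP (show ρ0 ≤ a by omega) a1
      (by rw [X.refl]; omega) (by omega) (by omega)
    unfold Geo.P at this
    linarith
  have hD0 : (0 : ℝ) < D := by positivity
  have p3 : X.P o (ρ + r) S Z (fun L => Bad L o ∨ Bad2 L o) ≤ 1 / (4 * D) := by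
    refine (Pr_or hp _ _).trans ((add_le_add h3 p2).trans ?_)
    have a1 : (S : ℝ) / T = 1 / (8 * D) := by
      have : (S : ℝ) ≠ 0 := by positivity
      rw [hT]; push_cast; field_simp
    have a2 : B * (1 - 1 / (2 * (P : ℝ) ^ 4)) ^ n ≤ 1 / (8 * D) := by
      rw [le_div_iff₀ (by positivity)]
      refine le_trans (le_of_eq ?_) he
      rw [hD, hn]; push_cast; ring
    have a3 : (1 : ℝ) / (4 * D) = 1 / (8 * D) + 1 / (8 * D) := by field_simp; ring
    linarith
  obtain ⟨Y, Y1, Y2, Y3⟩ := exists_sub (X := X) (k := a) (by omega) (X.ball o ρ)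
  obtain ⟨ω, hω⟩ := local_lemma hp Y (fun y => {i : (X.ball o (ρ + r)) × Fin S | X.d y i.1 ≤ r})
    (fun y ω => Bad (X.ext o (ρ + r) S Z ω) y ∨ Bad2 (X.ext o (ρ + r) S Z ω) y) (1 / (4 * D)) D
    hD1 (by positivity) (fun y _ => (h2.or t2).dep y)
    (fun y hy => le_trans (le_of_eq ((h2.or t2).stat
      (by have := X.mem_ball.1 (Y1 hy); omega) (by rw [X.refl]; omega))) p3)
    (fun y _ => by
      rw [hD]
      refine hP.pow _ a (by omega) y _ (fun u hu => ?_)
        (Y2.mono (by intro u hu; exact (Finset.mem_filter.1 hu).1))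
      obtain ⟨i, i1, i2⟩ := Set.not_disjoint_iff.1 (Finset.mem_filter.1 hu).2
      simp only [Set.mem_ofPred_eq] at i1 i2
      have a1 := X.tri y i.1 u
      rw [X.symm i.1 u] at a1
      have a2 : B * n * a ≤ 2 ^ B * n * a :=
        Nat.mul_le_mul_right _ (Nat.mul_le_mul_right _ Nat.lt_two_pow_self.le)
      have a3 : 2 ^ (e + B + 4) * a = 16 * (2 ^ B * n * a) := by rw [hn]; ring
      have a4 : r = 8 * (B * n * a) := by rw [hr, hS]; ring
      omega)
    (by field_simp; rfl)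
  refine ⟨lo, N (X.ext o (ρ + r) S Z ω), by omega, by omega, h6 _, fun x hx => ?_⟩
  obtain ⟨y, hy, hd⟩ := Y3 x (X.mem_ball.2 hx)
  have b1 := hω y hy
  push Not at b1
  rcases h7 _ y b1.1 with h8 | h8
  · have := h8 x (by rw [X.symm]; omega)
    unfold Deep at this
    push Not at this
    exact this
  · exfalso
    have b2 := b1.2
    simp only [Bad2] at b2
    push Not at b2
    choose! f f1 f2 using b2
    have a1 := hP.pow 2 a (by omega) y (X.cut (N (X.ext o (ρ + r) S Z ω)) y (3 * a))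
      (fun u hu => by have := (X.mem_cut.1 hu).1; omega)
      (((h6 _).anti (by omega)).mono (by intro u hu; exact (X.mem_cut.1 hu).2))
    have a2 : (Finset.range B).card ≤ ((Finset.range S).filter
        (fun i => X.Good a i (X.ext o (ρ + r) S Z ω) y)).card := by
      refine Finset.card_le_card_of_injOn (fun j => j * n + f j) (fun j hj => ?_)
        (fun j hj i hi hij => ?_)
      · have hj' : j ∈ Finset.range B := hj
        have := Nat.mul_le_mul_right n (show j + 1 ≤ B from Finset.mem_range.1 hj')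
        have := Finset.mem_range.1 (f1 j hj')
        rw [Nat.succ_mul] at *
        simp only [Finset.coe_filter, Finset.mem_range, Set.mem_ofPred_eq]
        exact ⟨by omega, f2 j hj'⟩
      · have c1 := Finset.mem_range.1 (f1 j hj)
        have c2 := Finset.mem_range.1 (f1 i hi)
        simp only at hij
        rcases lt_trichotomy j i with h | h | h
        · have := Nat.mul_le_mul_right n (show j + 1 ≤ i from h)
          rw [Nat.succ_mul] at this; omega
        · exact h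
        · have := Nat.mul_le_mul_right n (show i + 1 ≤ j from h)
          rw [Nat.succ_mul] at this; omega
    rw [Finset.card_range] at a2
    have := a2.trans h8
    norm_num at a1
    omega

end Geo

end Pool.Agent.MP_6f70ff_gt.H18

end

-- part MP_6f70ff_gt.H18.Band
section

/-!
Slow patches: pieces of nets in which no edge has nearly maximal length.
-/

set_option autoImplicit false

namespace Pool.Agent.MP_6f70ff_gt.H18

namespace Geo

variable {V : Type} {X : Geo V}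

lemma porous (F : Finset V) (u : V) : ∀ W A : ℕ, 3 ^ F.card * W ≤ 2 * A + W →
    ∃ u', 2 * X.d u u' + W ≤ 3 ^ F.card * W ∧ ∀ w ∈ F, X.d u' w ≤ A ∨ A + W < X.d u' w := by
  classical
  induction F using Finset.induction_on with
  | empty => intro W A _; exact ⟨u, by simp [X.refl], by simp⟩
  | insert w0 F hw ih =>
    intro W A h
    rw [Finset.card_insert_of_notMem hw, pow_succ, mul_assoc] at h ⊢
    have h0 : 3 * W ≤ 3 ^ F.card * (3 * W) := Nat.le_mul_of_pos_left _ (by positivity)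
    obtain ⟨v, v1, v2⟩ := ih (3 * W) (A - W) (by omega)
    by_cases hc : X.d v w0 ≤ A ∨ A + W < X.d v w0
    · refine ⟨v, by omega, fun w hw => ?_⟩
      rcases Finset.mem_insert.1 hw with rfl | hw
      · exact hc
      · have := v2 w hw; omega
    · obtain ⟨z, z1, z2⟩ := X.geo v w0 W (by omega)
      have := X.tri u v z
      refine ⟨z, by omega, fun w hw => ?_⟩
      rcases Finset.mem_insert.1 hw with rfl | hw
      · omega
      · have := v2 w hw
        have a1 := X.tri v z w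
        have a2 := X.tri z v w
        rw [X.symm z v] at a2
        omega

lemma Pk.move {P ρ0 : ℕ} (hP : X.Pk P ρ0) {b k σ : ℕ} (hσ : ρ0 ≤ σ)
    (h1 : k + 3 ^ P * b ≤ σ) (h2 : 3 ^ P * b ≤ k) (F : Finset V) (hF : X.Sep σ F) :
    ∃ φ : V → V, (∀ u, X.d u (φ u) ≤ 3 ^ P * b) ∧ ∀ u ∈ F, ∀ v ∈ F, u ≠ v →
      X.d (φ u) (φ v) ≤ 2 * k → X.d (φ u) (φ v) + b ≤ 2 * k := by
  classical
  induction F using Finset.induction_on with
  | empty => exact ⟨id, by simp [X.refl], by simp⟩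
  | insert u F hu ih =>
    obtain ⟨φ, φ1, φ2⟩ := ih (hF.mono (by simp))
    have hb : b ≤ 3 ^ P * b := Nat.le_mul_of_pos_left _ (by positivity)
    have a1 : ((F.filter (fun v => X.d u v ≤ 2 * σ)).image φ).card ≤ P :=
      Finset.card_image_le.trans (hP.2.2 σ hσ u _ (fun v hv => (Finset.mem_filter.1 hv).2)
        (hF.mono (by intro v hv; simp [(Finset.mem_filter.1 hv).1])))
    have a2 := Nat.mul_le_mul_right b (Nat.pow_le_pow_right (show 0 < 3 by norm_num) a1)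
    obtain ⟨z, z1, z2⟩ := porous (X := X) ((F.filter (fun v => X.d u v ≤ 2 * σ)).image φ) u b
      (2 * k - b) (by omega)
    have key : ∀ v ∈ F, X.d z (φ v) ≤ 2 * k → X.d z (φ v) + b ≤ 2 * k := by
      intro v hv hd
      have b1 := X.tri u z v
      have b2 := X.tri z (φ v) v
      have b3 := φ1 v
      rw [X.symm (φ v) v] at b2
      have := z2 (φ v) (Finset.mem_image_of_mem φ (Finset.mem_filter.2 ⟨hv, by omega⟩))
      omega
    have hne : ∀ v ∈ F, Function.update φ u z v = φ v := fun v hv =>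
      Function.update_of_ne (fun (e : v = u) => hu (e ▸ hv)) _ _
    refine ⟨Function.update φ u z, fun v => ?_, fun v hv w hw hvw => ?_⟩
    · by_cases e : v = u
      · subst e; rw [Function.update_self]; omega
      · rw [Function.update_of_ne e]; exact φ1 v
    · rcases Finset.mem_insert.1 hv with rfl | hv' <;> rcases Finset.mem_insert.1 hw with rfl | hw'
      · exact absurd rfl hvw
      · rw [Function.update_self, hne w hw']; exact key w hw'
      · rw [Function.update_self, hne v hv', X.symm]; exact key v hv'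
      · rw [hne v hv', hne w hw']; exact φ2 v hv' w hw' hvw

variable (X)

/-- a slow piece of a `k`-net around `y` -/
def Slow (k b ρ : ℕ) (y : V) (N : Set V) : Prop :=
  (∀ u ∈ N, X.d y u ≤ ρ + k) ∧ X.Sep k N ∧ (∀ x, X.d y x ≤ ρ → ∃ u ∈ N, X.d x u < k) ∧
    ∀ u ∈ N, ∀ v ∈ N, X.d u v ≤ 2 * k → X.d u v + b ≤ 2 * k

variable {X}

lemma Slow.move {k b ρ : ℕ} {y : V} {N : Set V} (h : X.Slow k b ρ y N) (y' : V) :
    ∃ N', X.Slow k b ρ y' N' := by
  obtain ⟨g, hg, rfl⟩ := X.trans y y'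
  refine ⟨g '' N, ?_, ?_, fun x hx => ?_, ?_⟩
  · rintro _ ⟨u, hu, rfl⟩; rw [hg]; exact h.1 u hu
  · rintro _ ⟨u, hu, rfl⟩ _ ⟨v, hv, rfl⟩ huv
    rw [hg]; exact h.2.1 u hu v hv fun e => huv (by rw [e])
  · obtain ⟨x, rfl⟩ := g.surjective x
    rw [hg] at hx
    obtain ⟨u, hu, hd⟩ := h.2.2.1 x hx
    exact ⟨g u, ⟨u, hu, rfl⟩, by rwa [hg]⟩
  · rintro _ ⟨u, hu, rfl⟩ _ ⟨v, hv, rfl⟩
    rw [hg]; exact h.2.2.2 u hu v hv

lemma Pk.slow {P ρ0 : ℕ} (hP : X.Pk P ρ0) (o : V) : ∃ Q, 1 ≤ Q ∧ ∀ b, ρ0 ≤ b → ∀ ρ,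
    ∃ k, Q * b ≤ k ∧ k ≤ 2 * (Q * b) ∧ ∀ y, ∃ N, X.Slow k b ρ y N := by
  obtain ⟨T, hT, h⟩ := hP.slack
  refine ⟨T * (3 * 3 ^ P), Nat.mul_pos hT (by positivity), fun b hb ρ => ?_⟩
  obtain ⟨g, hg⟩ : ∃ g, g = 3 ^ P * b := ⟨_, rfl⟩
  have hbg : b ≤ g := by rw [hg]; exact Nat.le_mul_of_pos_left _ (by positivity)
  obtain ⟨lo, N, h1, h2, h3, h4⟩ := h (3 * g) (by omega) o ρ
  have e : T * (3 * 3 ^ P) * b = T * (3 * g) := by rw [hg]; ring
  have h5 : 3 * g ≤ T * (3 * g) := Nat.le_mul_of_pos_left _ hT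
  rw [e]
  refine ⟨lo + g, by omega, by omega, fun y => ?_⟩
  obtain ⟨φ, φ1, φ2⟩ := hP.move (b := b) (k := lo + g) (σ := lo + 3 * g) (by omega) (by omega)
    (by omega) (X.cut N o (ρ + lo)) (h3.mono (by intro u hu; exact (X.mem_cut.1 hu).2))
  rw [← hg] at φ1
  refine Slow.move (y := o) (N := φ '' (X.cut N o (ρ + lo))) ⟨?_, ?_, fun x hx => ?_, ?_⟩ y
  · rintro _ ⟨u, hu, rfl⟩
    have := (X.mem_cut.1 hu).1
    have := X.tri o u (φ u)
    have := φ1 u
    omega
  · rintro _ ⟨u, hu, rfl⟩ _ ⟨v, hv, rfl⟩ huv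
    have := h3 u (X.mem_cut.1 hu).2 v (X.mem_cut.1 hv).2 fun e => huv (by rw [e])
    have := X.tri u (φ u) v
    have a := X.tri (φ u) (φ v) v
    rw [X.symm (φ v) v] at a
    have := φ1 u
    have := φ1 v
    omega
  · obtain ⟨u, hu, hd⟩ := h4 x hx
    have := X.tri o x u
    have := X.tri x u (φ u)
    have := φ1 u
    exact ⟨φ u, ⟨u, X.mem_cut.2 ⟨by omega, hu⟩, rfl⟩, by omega⟩
  · rintro _ ⟨u, hu, rfl⟩ _ ⟨v, hv, rfl⟩ hd
    by_cases e : u = v
    · rw [e, X.refl]; omega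
    · exact φ2 u hu v hv e hd

end Geo

end Pool.Agent.MP_6f70ff_gt.H18

end

-- part MP_6f70ff_gt.H18.Highway
section

/-!
Highways: separated sets which follow given paths at full speed.
-/

set_option autoImplicit false

namespace Pool.Agent.MP_6f70ff_gt.H18

namespace Geo

variable {V : Type} {X : Geo V}

lemma walk_set {l : V → ℕ} {z : V} (pred : ∀ v, v ≠ z → ∃ u, X.d u v ≤ 1 ∧ l u < l v) (x : V) :
    ∃ W : Finset V, z ∈ W ∧ x ∈ W ∧ (∀ u ∈ W, ∀ v ∈ W, l u ≤ l v → l u + X.d u v ≤ l v) ∧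
      (∀ u ∈ W, l u ≤ l x) ∧ ∀ u ∈ W, u ≠ x → ∃ v ∈ W, X.d u v ≤ 1 ∧ l u < l v := by
  classical
  induction h : l x using Nat.strong_induction_on generalizing x with
  | _ m ih =>
    subst h
    by_cases hx : x = z
    · subst hx
      exact ⟨{x}, by simp, by simp, by simp [X.refl], by simp, by simp⟩
    · obtain ⟨p, p1, p2⟩ := pred x hx
      obtain ⟨W, w1, w2, w3, w4, w5⟩ := ih _ p2 p rfl
      refine ⟨insert x W, by simp [w1], by simp, fun u hu v hv huv => ?_, fun u hu => ?_,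
        fun u hu hux => ?_⟩
      · rcases Finset.mem_insert.1 hu with rfl | hu' <;> rcases Finset.mem_insert.1 hv with rfl | hv'
        · simp [X.refl]
        · have := w4 v hv'; omega
        · have := w3 u hu' p w2 (w4 u hu')
          have := X.tri u p v
          omega
        · exact w3 u hu' v hv' huv
      · rcases Finset.mem_insert.1 hu with rfl | hu'
        · rfl
        · have := w4 u hu'; omega
      · have hu' : u ∈ W := by simpa [hux] using hu
        by_cases e : u = p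
        · subst e; exact ⟨x, by simp, p1, p2⟩
        · obtain ⟨v, v1, v2⟩ := w5 u hu' e
          exact ⟨v, by simp [v1], v2⟩

variable (X)

/-- the invariant of a highway -/
def Hw (l : V → ℕ) (z : V) (k L c : ℕ) (H : Set V) : Prop :=
  z ∈ H ∧ X.Sep k H ∧ ∀ q ∈ H, l q ≤ L ∧ ∃ s, X.Ch H (2 * k) z q s ∧ 2 * k * s ≤ l q + c

variable {X}

lemma Hw.insert {l : V → ℕ} {z : V} {k L c c' : ℕ} {H : Set V} (h : X.Hw l z k L c H)
    (hc : c ≤ c') {p q : V} (hq : q ∈ H) (h1 : ∀ u ∈ H, k ≤ X.d p u) (h2 : X.d q p ≤ 2 * k)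
    (h3 : l p ≤ L) (h4 : l q + c + 2 * k ≤ l p + c') : X.Hw l z k L c' (insert p H) := by
  refine ⟨Or.inr h.1, h.2.1.insert h1, ?_⟩
  rintro u (rfl | hu)
  · obtain ⟨_, s, s1, s2⟩ := h.2.2 q hq
    exact ⟨h3, s + 1, .step (s1.mono (Set.subset_insert _ _)) (Or.inl rfl) h2,
      by rw [Nat.mul_succ]; omega⟩
  · obtain ⟨a, s, s1, s2⟩ := h.2.2 u hu
    exact ⟨a, s, s1.mono (Set.subset_insert _ _), by omega⟩

lemma Hw.forward {l : V → ℕ} {z x : V} {k L c : ℕ} (hk : 1 ≤ k) (hx : l x ≤ L) {W : Finset V}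
    (w3 : ∀ u ∈ W, ∀ v ∈ W, l u ≤ l v → l u + X.d u v ≤ l v) (w4 : ∀ u ∈ W, l u ≤ l x)
    (w5 : ∀ u ∈ W, u ≠ x → ∃ v ∈ W, X.d u v ≤ 1 ∧ l u < l v) (p : V) (H : Set V)
    (h : X.Hw l z k L c H) (hp : p ∈ W) (hH : p ∈ H)
    (hf : ∀ v ∈ W, l p < l v → ∀ q ∈ H, q ≠ p → k ≤ X.d v q) :
    ∃ H', H ⊆ H' ∧ X.Hw l z k L c H' ∧ ∃ q ∈ H', X.d q x ≤ 2 * k := by
  classical
  induction hm : l x - l p using Nat.strong_induction_on generalizing p H with
  | _ m ih =>
    obtain ⟨j, hj, hmax⟩ := Finset.exists_max_image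
      (W.filter (fun v => X.d p v ≤ 2 * k ∧ l p ≤ l v)) l ⟨p, by simp [hp, X.refl]⟩
    simp only [Finset.mem_filter] at hj hmax
    have far : ∀ v ∈ W, l j < l v → 2 * k < X.d p v := fun v hv hl => by
      by_contra hc
      have := hmax v ⟨hv, by omega, by omega⟩
      omega
    by_cases e : j = x
    · subst e; exact ⟨H, subset_rfl, h, p, hH, hj.2.1⟩
    · obtain ⟨v, v1, v2, v3⟩ := w5 j hj.1 e
      have a1 := far v v1 v3
      have a2 := X.tri p j v
      have a3 := w3 p hp j hj.1 hj.2.2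
      have a4 := w4 j hj.1
      have h2 : X.Hw l z k L c (Insert.insert j H) := h.insert le_rfl hH (fun u hu => by
        by_cases e' : u = p
        · rw [e', X.symm]; omega
        · exact hf j hj.1 (by omega) u hu e') hj.2.1 (by omega) (by omega)
      obtain ⟨H', b1, b2⟩ := ih (l x - l j) (by omega) j _ h2 hj.1 (Or.inl rfl) (by
        rintro u hu hl q (rfl | hq) hne
        · exact absurd rfl hne
        · by_cases e' : q = p
          · have := far u hu hl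
            rw [e', X.symm]; omega
          · exact hf u hu (by omega) q hq e') rfl
      exact ⟨H', (Set.subset_insert _ _).trans b1, b2⟩

lemma Hw.walk {l : V → ℕ} {z : V} {k L c M : ℕ} (hk : 1 ≤ k)
    (lip : ∀ v w, l w ≤ l v + M * X.d v w) (pred : ∀ v, v ≠ z → ∃ u, X.d u v ≤ 1 ∧ l u < l v)
    {H : Set V} (h : X.Hw l z k L c H) {x : V} (hx : l x ≤ L) :
    ∃ H', H ⊆ H' ∧ X.Hw l z k L (c + (M + 2) * k) H' ∧ ∃ q ∈ H', X.d q x ≤ 2 * k := by
  classical
  obtain ⟨W, w1, w2, w3, w4, w5⟩ := walk_set pred x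
  obtain ⟨j, hj, hmax⟩ := Finset.exists_max_image (W.filter (fun v => ∃ q ∈ H, X.d v q < k)) l
    ⟨z, Finset.mem_filter.2 ⟨w1, z, h.1, by rw [X.refl]; omega⟩⟩
  simp only [Finset.mem_filter] at hj hmax
  obtain ⟨hj, q, q1, q2⟩ := hj
  have far : ∀ v ∈ W, l j < l v → ∀ u ∈ H, k ≤ X.d v u := fun v hv hl u hu => by
    by_contra hc
    have := hmax v ⟨hv, u, hu, by omega⟩
    omega
  by_cases e : j = x
  · subst e
    refine ⟨H, subset_rfl, ⟨h.1, h.2.1, fun u hu => ?_⟩, q, q1, by rw [X.symm]; omega⟩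
    obtain ⟨a, s, s1, s2⟩ := h.2.2 u hu
    exact ⟨a, s, s1, by omega⟩
  · obtain ⟨p, p1, p2, p3⟩ := w5 j hj e
    have a1 := X.tri p j q
    rw [X.symm p j] at a1
    have a2 := lip p q
    have a3 : M * X.d p q ≤ M * k := Nat.mul_le_mul_left _ (by omega)
    have a4 := w4 p p1
    have h2 : X.Hw l z k L (c + (M + 2) * k) (Insert.insert p H) :=
      h.insert (by omega) q1 (far p p1 p3) (by rw [X.symm]; omega) (by omega)
        (by rw [Nat.add_mul]; omega)
    obtain ⟨H', b1, b2⟩ := Hw.forward hk hx w3 w4 w5 p _ h2 p1 (Or.inl rfl) (by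
      rintro u hu hl v (rfl | hv) hne
      · exact absurd rfl hne
      · exact far u hu (by omega) v hv)
    exact ⟨H', (Set.subset_insert _ _).trans b1, b2⟩

variable (X)

/-- walks from `z` in which a step into `U` costs one and any other step costs `M` -/
inductive WC (U : Set V) (M : ℕ) (z : V) : V → ℕ → Prop
  | refl : WC U M z z 0
  | cheap {v w : V} {c : ℕ} : WC U M z v c → X.d v w ≤ 1 → w ∈ U → WC U M z w (c + 1)
  | dear {v w : V} {c : ℕ} : WC U M z v c → X.d v w ≤ 1 → WC U M z w (c + M)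

variable {X}

lemma WC.add {U : Set V} {M : ℕ} {z v w : V} {c s : ℕ} (h : X.WC U M z v c)
    (h' : X.Ch Set.univ 1 v w s) : X.WC U M z w (c + M * s) := by
  induction h' with
  | refl _ => simpa using h
  | step _ _ h2 ih => rw [Nat.mul_succ, ← add_assoc]; exact .dear ih h2

lemma WC.of_ch {U : Set V} {M : ℕ} {z w : V} {s : ℕ} (h : X.Ch U 1 z w s) : X.WC U M z w s := by
  induction h with
  | refl _ => exact .refl
  | step _ h1 h2 ih => exact .cheap ih h2 h1

lemma WC.depth {U : Set V} {M : ℕ} {z v y : V} {c t : ℕ} (h : X.WC U M z v c) (hz : z ∈ U)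
    (hU : ∀ w ∈ U, t ≤ X.d y w) : M * t ≤ c + M * X.d y v := by
  induction h with
  | refl => simpa using Nat.mul_le_mul_left _ (hU z hz)
  | cheap _ _ h2 _ => exact (Nat.mul_le_mul_left _ (hU _ h2)).trans (by omega)
  | @dear v w c _ h1 ih =>
    have a1 := X.tri y w v
    rw [X.symm w v] at a1
    have a2 : M * X.d y v ≤ M * (X.d y w + 1) := Nat.mul_le_mul_left _ (by omega)
    rw [Nat.mul_succ] at a2
    omega

lemma highway {z : V} {U : Set V} {M k L : ℕ} (hM : 1 ≤ M) (hk : 1 ≤ k) (hz : z ∈ U)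
    {ι : Type} (I : Finset ι) (x : ι → V) (hx : ∀ j ∈ I, ∃ m ≤ L, X.Ch U 1 z (x j) m) :
    ∃ H, z ∈ H ∧ X.Sep k H ∧
      (∀ q ∈ H, ∀ y t, (∀ w ∈ U, t ≤ X.d y w) → M * t ≤ L + M * X.d y q) ∧
      ∀ j ∈ I, ∃ q m, X.d q (x j) ≤ 2 * k ∧ X.Ch H (2 * k) z q m ∧
        2 * k * m ≤ L + I.card * ((M + 2) * k) := by
  classical
  let l : V → ℕ := fun v => sInf {c | X.WC U M z v c}
  have l1 : ∀ v, X.WC U M z v (l v) := fun v =>
    Nat.sInf_mem (s := {c | X.WC U M z v c}) ⟨_, WC.refl.add (ch_geod z v _ fun _ _ => trivial)⟩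
  have l2 : ∀ v c, X.WC U M z v c → l v ≤ c := fun v c h => Nat.sInf_le h
  have lip : ∀ v w, l w ≤ l v + M * X.d v w := fun v w =>
    l2 _ _ ((l1 v).add (ch_geod v w _ fun _ _ => trivial))
  have pred : ∀ v, v ≠ z → ∃ u, X.d u v ≤ 1 ∧ l u < l v := by
    intro v hv
    have h := l1 v
    generalize l v = c at h
    cases h with
    | refl => exact absurd rfl hv
    | cheap h1 h2 _ => exact ⟨_, h2, Nat.lt_succ_of_le (l2 _ _ h1)⟩
    | dear h1 h2 => exact ⟨_, h2, by have := l2 _ _ h1; omega⟩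
  have key : ∃ H, X.Hw l z k L (I.card * ((M + 2) * k)) H ∧
      ∀ j ∈ I, ∃ q ∈ H, X.d q (x j) ≤ 2 * k := by
    induction I using Finset.induction_on with
    | empty =>
      refine ⟨{z}, ⟨rfl, by rintro u rfl v rfl h; exact absurd rfl h, ?_⟩, by simp⟩
      rintro q rfl
      exact ⟨(l2 _ _ .refl).trans (Nat.zero_le _), 0, .refl rfl, by simp⟩
    | insert j I hj ih =>
      obtain ⟨H, h1, h2⟩ := ih fun i hi => hx i (by simp [hi])
      obtain ⟨m, m1, m2⟩ := hx j (by simp)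
      obtain ⟨H', b1, b2, b3⟩ := h1.walk hk lip pred ((l2 _ _ (WC.of_ch m2)).trans m1)
      refine ⟨H', by rwa [Finset.card_insert_of_notMem hj, Nat.succ_mul], fun i hi => ?_⟩
      rcases Finset.mem_insert.1 hi with rfl | hi
      · exact b3
      · obtain ⟨q, q1, q2⟩ := h2 i hi
        exact ⟨q, b1 q1, q2⟩
  obtain ⟨H, h1, h2⟩ := key
  refine ⟨H, h1.1, h1.2.1, fun q hq y t hU => ?_, fun j hj => ?_⟩
  · have := (l1 q).depth hz hU
    have := (h1.2.2 q hq).1
    omega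
  · obtain ⟨q, q1, q2⟩ := h2 j hj
    obtain ⟨a, s, s1, s2⟩ := h1.2.2 q q1
    exact ⟨q, s, q2, s1, by omega⟩

end Geo

end Pool.Agent.MP_6f70ff_gt.H18

end

-- part MP_6f70ff_gt.H18.Amp
section

/-!
Configurations of far apart points joined to a base point by paths avoiding the other points.
-/

set_option autoImplicit false

namespace Pool.Agent.MP_6f70ff_gt.H18

namespace Geo

variable {V : Type} (X : Geo V)

/-- `n` points at mutual distance `2t`, each joined to `z` by a path of length at most `σ` which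
stays at distance `t` from the other points -/
def Cfg (σ n t : ℕ) : Prop := ∃ (z : V) (y : Fin n → V),
  (∀ i j, i ≠ j → 2 * t ≤ X.d (y i) (y j)) ∧ (∀ i, t ≤ X.d (y i) z) ∧
    ∀ j, ∃ s ≤ σ, X.Ch {v | ∀ i, i ≠ j → t ≤ X.d (y i) v} 1 z (y j) s

/-- the same in the chain distance of a net -/
def NCfg (N : Set V) (l σ n τ : ℕ) : Prop := ∃ (z : V) (y : Fin n → V), z ∈ N ∧ (∀ i, y i ∈ N) ∧
  (∀ i j, i ≠ j → ∀ s, X.Ch N l (y i) (y j) s → 2 * τ ≤ s) ∧
  (∀ i s, X.Ch N l (y i) z s → τ ≤ s) ∧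
    ∀ j, ∃ s ≤ σ, X.Ch {w ∈ N | ∀ i, i ≠ j → ∀ s, X.Ch N l (y i) w s → τ ≤ s} l z (y j) s

variable {X}

lemma Ch.trunc {S : Set V} {z w y : V} {s t : ℕ} (h : X.Ch S 1 z w s) (hz : t ≤ X.d y z) :
    X.Ch (S ∩ {v | t ≤ X.d y v}) 1 z w s ∨
      ∃ x, ∃ m ≤ s, X.d y x ≤ t ∧ X.Ch (S ∩ {v | t ≤ X.d y v}) 1 z x m := by
  induction h with
  | refl h => exact Or.inl (.refl ⟨h, hz⟩)
  | @step v w s _ h1 h2 ih =>
    rcases ih with ih | ⟨x, m, m1, m2⟩
    · by_cases hc : t ≤ X.d y w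
      · exact Or.inl (.step ih ⟨h1, hc⟩ h2)
      · have := X.tri y w v
        rw [X.symm w v] at this
        exact Or.inr ⟨v, s, by omega, by omega, ih⟩
    · exact Or.inr ⟨x, m, by omega, m2⟩

lemma Ch.pot {N : Set V} {l c s : ℕ} {u v : V} (f g : V → ℕ) (h : X.Ch N l u v s)
    (hf : ∀ a ∈ N, ∀ b ∈ N, X.d a b ≤ l → f b + g a ≤ f a + g b + c) :
    f v + g u ≤ f u + g v + s * c := by
  induction h with
  | refl _ => omega
  | step h0 h1 h2 ih =>
    have := hf _ h0.right _ h1 h2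
    rw [Nat.succ_mul]; omega

lemma Cfg.net {P ρ0 : ℕ} (hP : X.Pk P ρ0) {σ n t k b ρ M τ : ℕ} (h : X.Cfg σ n t) (hk : ρ0 ≤ k)
    (hb : b < 2 * k) (hM : 1 ≤ M) (hs : ∀ y, ∃ N, X.Slow k b ρ y N)
    (h1 : M * (ρ + 3 * k) + σ ≤ M * t) (h2 : τ * (2 * k - b) + 3 * k ≤ ρ) :
    ∃ N σ', X.Net k N ∧ 2 * k * σ' ≤ σ + n * ((M + 2) * k) + 2 * k * (((t + 3 * k) / k + 1) * P) ∧
      X.NCfg N (2 * k) σ' n τ := by
  obtain ⟨z, y, c1, c2, c3⟩ := h
  have hk1 : 1 ≤ k := hP.2.1.trans hk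
  have ht : ρ + 3 * k ≤ t := Nat.le_of_mul_le_mul_left (by omega) hM
  have tr : ∀ j, ∃ x, X.d (y j) x ≤ t ∧ ∃ m ≤ σ, X.Ch {v | ∀ i, t ≤ X.d (y i) v} 1 z x m := by
    intro j
    obtain ⟨s, s1, s2⟩ := c3 j
    have hsub : {v | ∀ i, i ≠ j → t ≤ X.d (y i) v} ∩ {v | t ≤ X.d (y j) v} ⊆
        {v | ∀ i, t ≤ X.d (y i) v} := by
      rintro v ⟨v1, v2⟩ i
      by_cases e : i = j
      · rw [e]; exact v2
      · exact v1 i e
    rcases s2.trunc (c2 j) with h | ⟨x, m, m1, m2, m3⟩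
    · exact ⟨y j, by simp [X.refl], s, s1, h.mono hsub⟩
    · exact ⟨x, m2, m, by omega, m3.mono hsub⟩
  choose x x1 x2 using tr
  obtain ⟨H, H1, H2, H3, H4⟩ := highway (X := X) (U := {v | ∀ i, t ≤ X.d (y i) v}) (L := σ)
    hM hk1 c2 Finset.univ x fun j _ => x2 j
  have H5 : ∀ q ∈ H, ∀ i, ρ + 3 * k ≤ X.d (y i) q := fun q hq i => by
    have := H3 q hq (y i) t fun w hw => hw i
    exact Nat.le_of_mul_le_mul_left (by omega) hM
  choose S S1 using fun i => hs (y i)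
  have sep : X.Sep k (H ∪ ⋃ i, S i) := by
    have hs : ∀ u ∈ H, ∀ i, ∀ v ∈ S i, k ≤ X.d v u := fun u hu i v hv => by
      have := H5 u hu i
      have := (S1 i).1 v hv
      have := X.tri (y i) v u
      omega
    rintro u (hu | hu) v (hv | hv) huv
    · exact H2 u hu v hv huv
    · obtain ⟨i, hi⟩ := Set.mem_iUnion.1 hv
      rw [X.symm]; exact hs u hu i v hi
    · obtain ⟨i, hi⟩ := Set.mem_iUnion.1 hu
      exact hs v hv i u hi
    · obtain ⟨i, hi⟩ := Set.mem_iUnion.1 hu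
      obtain ⟨j, hj⟩ := Set.mem_iUnion.1 hv
      by_cases e : i = j
      · subst e; exact (S1 i).2.1 u hi v hj huv
      · have := c1 i j e
        have := (S1 i).1 u hi
        have := (S1 j).1 v hj
        have := X.tri (y i) u (y j)
        have a := X.tri u v (y j)
        rw [X.symm v (y j)] at a
        omega
  obtain ⟨N, N1, N2⟩ := exists_net hk1 sep
  have inS : ∀ i, ∀ u ∈ N, X.d (y i) u ≤ ρ → u ∈ S i := fun i u hu hd => by
    obtain ⟨v, v1, v2⟩ := (S1 i).2.2.1 u hd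
    by_cases e : u = v
    · rwa [e]
    · have := N2.1 u hu v (N1 (Or.inr (Set.mem_iUnion.2 ⟨i, v1⟩))) e
      omega
  have slow : ∀ i, ∀ u ∈ N, ∀ v ∈ N, X.d u v ≤ 2 * k → X.d (y i) u < ρ - 2 * k →
      X.d u v ≤ 2 * k - b := fun i u hu v hv hd hy => by
    have := X.tri (y i) u v
    have := (S1 i).2.2.2 u (inS i u hu (by omega)) v (inS i v hv (by omega)) hd
    omega
  choose y' y1 y2 using fun i => N2.2 (y i)
  have far : ∀ i w, ρ - 2 * k ≤ X.d (y i) w → ∀ s, X.Ch N (2 * k) (y' i) w s → τ ≤ s := by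
    intro i w hw s hs
    have := hs.pot (c := 2 * k - b) (fun v => min (X.d (y i) v) (ρ - 2 * k)) (fun _ => 0)
      (fun u hu v hv hd => by
        have := slow i u hu v hv hd
        have := X.tri (y i) u v
        omega)
    have := y2 i
    exact Nat.le_of_mul_le_mul_right (by omega) (show 0 < 2 * k - b by omega)
  choose q m q1 q2 q3 using fun j => H4 j (Finset.mem_univ j)
  simp only [Finset.card_univ, Fintype.card_fin] at q3
  refine ⟨N, (σ + n * ((M + 2) * k)) / (2 * k) + ((t + 3 * k) / k + 1) * P, N2, ?_, z, y',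
    N1 (Or.inl H1), y1, fun i j hij s hs => ?_, fun i => far i z (by have := c2 i; omega),
    fun j => ?_⟩
  · have := Nat.mul_div_le (σ + n * ((M + 2) * k)) (2 * k)
    rw [Nat.mul_add]; omega
  · have := hs.pot (c := 2 * k - b) (fun v => min (X.d (y i) v) (ρ - 2 * k))
      (fun v => min (X.d (y j) v) (ρ - 2 * k))
      (fun u hu v hv hd => by
        have := slow i u hu v hv hd
        have a := slow j v hv u hu (by rwa [X.symm])
        have := X.tri (y i) u v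
        have a1 := X.tri (y j) v u
        have := c1 i j hij
        have := X.tri (y i) u (y j)
        have a2 := X.tri u v (y j)
        rw [X.symm v u] at a a1
        rw [X.symm v (y j)] at a2
        omega)
    have := y2 i
    have := y2 j
    have := c1 i j hij
    have a1 := X.tri (y i) (y' j) (y j)
    have a2 := X.tri (y i) (y' i) (y j)
    rw [X.symm (y' j)] at a1
    rw [X.symm (y' i)] at a2
    refine Nat.le_of_mul_le_mul_right ?_ (show 0 < 2 * k - b by omega)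
    rw [mul_assoc]
    omega
  · have hq : q j ∈ H := (q2 j).right
    obtain ⟨s, s1, s2⟩ := hP.chain hk N2 (N1 (Or.inl hq)) (y1 j)
    have a1 := X.tri (q j) (x j) (y' j)
    have a2 := X.tri (x j) (y j) (y' j)
    rw [X.symm (x j) (y j)] at a2
    have a3 := q1 j
    have a4 := x1 j
    have a5 := y2 j
    have a6 : (X.d (q j) (y' j) / k + 1) * P ≤ ((t + 3 * k) / k + 1) * P :=
      Nat.mul_le_mul_right _ (Nat.succ_le_succ (Nat.div_le_div_right (by omega)))
    have a7 : m j ≤ (σ + n * ((M + 2) * k)) / (2 * k) := by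
      rw [Nat.le_div_iff_mul_le (by omega), mul_comm]; exact q3 j
    refine ⟨m j + s, by omega, ((q2 j).mono fun w hw => ?_).trans (s2.mono fun w hw => ?_)⟩
    · exact ⟨N1 (Or.inl hw), fun i _ => far i w (by have := H5 w hw i; omega)⟩
    · refine ⟨hw.1, fun i hij => far i w ?_⟩
      have := hw.2
      have := c1 i j hij
      have := X.tri (y i) w (y j)
      have b1 := X.tri w (y' j) (y j)
      rw [X.symm w (y' j), X.symm (y' j) (y j)] at b1
      omega

lemma Ch.sample {S T : Set V} {l r E : ℕ} (h : V → V)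
    (hU : ∀ u v s, s ≤ r → X.Ch S l u v s → X.d (h u) (h v) ≤ E)
    (hT : ∀ w ∈ S, ∀ p, X.d (h w) p ≤ E → p ∈ T) (m : ℕ) :
    ∀ {u v : V} {s : ℕ}, s ≤ m * r → X.Ch S l u v s →
      ∃ s' ≤ (m + 1) * E, X.Ch T 1 (h u) (h v) s' := by
  have one : ∀ u v s, s ≤ r → X.Ch S l u v s → ∃ s' ≤ E, X.Ch T 1 (h u) (h v) s' :=
    fun u v s hs hc => ⟨_, hU u v s hs hc, ch_geod _ _ _ fun p hp =>
      hT u hc.left p (by have := hU u v s hs hc; omega)⟩
  induction m with
  | zero => intro u v s hs hc; simpa using one u v s (by omega) hc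
  | succ m ih =>
    intro u v s hs hc
    rw [Nat.succ_mul] at hs
    rw [Nat.succ_mul]
    by_cases e : s ≤ r
    · obtain ⟨s', s1, s2⟩ := one u v s e hc
      exact ⟨s', by omega, s2⟩
    · obtain ⟨w, w1, w2⟩ := hc.split r (by omega)
      obtain ⟨a, a1, a2⟩ := ih (by omega) w1
      obtain ⟨b, b1, b2⟩ := one _ _ _ le_rfl w2
      exact ⟨a + b, by omega, a2.trans b2⟩

lemma NCfg.back {N : Set V} {l σ n τ r E t : ℕ} {C : ℝ} (hC : 1 < C) (h : X.NCfg N l σ n τ)
    (f : V → V) (f1 : ∀ u v s, X.Ch N l u v s → (X.d (f u) (f v) : ℝ) ≤ C * (s + 3))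
    (f2 : ∀ u ∈ N, ∀ v ∈ N, ∃ s, X.Ch N l u v s ∧ (s : ℝ) ≤ C * (X.d (f u) (f v) + C) + 2)
    (hr : 1 ≤ r) (hE : C * (r + 3) ≤ E) (ht : C * (t + E + C) + 2 ≤ τ) :
    X.Cfg ((σ / r + 2) * E) n t := by
  obtain ⟨z, y, z1, y1, c1, c2, c3⟩ := h
  have far : ∀ i, ∀ w ∈ N, (∀ s, X.Ch N l (y i) w s → τ ≤ s) → t + E ≤ X.d (f (y i)) (f w) := by
    intro i w hw hs
    obtain ⟨s, s1, s2⟩ := f2 _ (y1 i) w hw
    have a1 : (τ : ℝ) ≤ s := by exact_mod_cast hs s s1
    have a2 : (t : ℝ) + E + C ≤ X.d (f (y i)) (f w) + C :=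
      le_of_mul_le_mul_left (by linarith) (show 0 < C by linarith)
    have a3 : (t : ℝ) + E ≤ X.d (f (y i)) (f w) := by linarith
    exact_mod_cast a3
  refine ⟨f z, fun i => f (y i), fun i j hij => ?_, fun i => ?_, fun j => ?_⟩
  · obtain ⟨s, s1, s2⟩ := f2 _ (y1 i) _ (y1 j)
    have a1 : (2 * τ : ℝ) ≤ s := by exact_mod_cast c1 i j hij s s1
    have a2 : 2 * ((t : ℝ) + E + C) ≤ X.d (f (y i)) (f (y j)) + C :=
      le_of_mul_le_mul_left (by linarith) (show 0 < C by linarith)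
    have a0 : (0 : ℝ) ≤ E := by positivity
    have a3 : 2 * (t : ℝ) ≤ X.d (f (y i)) (f (y j)) := by linarith
    exact_mod_cast a3
  · have := far i z z1 (c2 i)
    simp only
    omega
  · obtain ⟨s, s1, s2⟩ := c3 j
    refine Ch.sample (r := r) (E := E) f (fun u v s hs hc => ?_) (fun w hw p hp => ?_)
      (σ / r + 1) ?_ s2
    · have a1 := f1 u v s (hc.mono fun w hw => hw.1)
      have a2 : (s : ℝ) ≤ r := by exact_mod_cast hs
      have a3 : (X.d (f u) (f v) : ℝ) ≤ E := by nlinarith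
      exact_mod_cast a3
    · intro i hij
      have := far i w hw.1 (hw.2 i hij)
      have a := X.tri (f (y i)) p (f w)
      rw [X.symm p] at a
      simp only
      omega
    · have := Nat.lt_div_mul_add (a := σ) (b := r) hr
      rw [Nat.succ_mul]; omega

lemma Cfg.mono {σ σ' n t : ℕ} (h : X.Cfg σ n t) (hσ : σ ≤ σ') : X.Cfg σ' n t := by
  obtain ⟨z, y, c1, c2, c3⟩ := h
  refine ⟨z, y, c1, c2, fun j => ?_⟩
  obtain ⟨s, s1, s2⟩ := c3 j
  exact ⟨s, s1.trans hσ, s2⟩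

lemma Cfg.bound {P ρ0 : ℕ} (hP : X.Pk P ρ0) {Λ n t : ℕ} (h : X.Cfg (Λ * t) n t) (ht : ρ0 ≤ t) :
    n ≤ P ^ (Λ + 1) := by
  classical
  obtain ⟨z, y, c1, c2, c3⟩ := h
  have h0 := hP.2.1
  have inj : Function.Injective y := fun i j hij => by
    by_contra hc
    have := c1 i j hc
    rw [hij, X.refl] at this
    omega
  have := hP.pow Λ t ht z (Finset.univ.image y) (fun u hu => by
    obtain ⟨j, _, rfl⟩ := Finset.mem_image.1 hu
    obtain ⟨s, s1, s2⟩ := c3 j
    have := s2.dist_le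
    have : Λ * t ≤ 2 ^ Λ * t := Nat.mul_le_mul_right _ Nat.lt_two_pow_self.le
    omega) (fun u hu v hv huv => by
    obtain ⟨i, _, rfl⟩ := Finset.mem_image.1 hu
    obtain ⟨j, _, rfl⟩ := Finset.mem_image.1 hv
    have := c1 i j fun e => huv (by rw [e])
    omega)
  rwa [Finset.card_image_of_injective _ inj, Finset.card_univ, Fintype.card_fin] at this

end Geo

end Pool.Agent.MP_6f70ff_gt.H18

end

-- part MP_6f70ff_gt.H18.Params
section

/-!
The choice of parameters in the amplification step.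
-/

set_option autoImplicit false

namespace Pool.Agent.MP_6f70ff_gt.H18

lemma coef {u Q A Λ : ℝ} (hu : 0 < u) (hQ : 1 ≤ Q) (h : 80 * Q * u = 1) (hA : 1 ≤ A)
    (hΛ : 16 * Q ^ 2 * A ≤ Λ) :
    (1 + u) * (1 - 20 * u) * (1 + 5 * u) * (Λ + A) < Λ * (1 - u) := by
  have h1 : u ≤ 1 / 80 := by nlinarith
  have h2 : (1 + u) * (1 + 5 * u) ≤ (1 + 20 * u) * (1 - u) := by nlinarith
  have h3 : A ≤ 400 * u ^ 2 * Λ := by
    have : 400 * u ^ 2 * (16 * Q ^ 2 * A) = (80 * Q * u) ^ 2 * A := by ring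
    rw [h] at this
    nlinarith [mul_le_mul_of_nonneg_left hΛ (show 0 ≤ 400 * u ^ 2 by positivity)]
  have h4 : 0 < Λ + A := by nlinarith [sq_nonneg Q]
  have h5 : (1 - 400 * u ^ 2) * (Λ + A) < Λ := by nlinarith [mul_pos (pow_pos hu 2) (show 0 < A by linarith)]
  calc (1 + u) * (1 - 20 * u) * (1 + 5 * u) * (Λ + A)
      = ((1 + u) * (1 + 5 * u)) * ((1 - 20 * u) * (Λ + A)) := by ring
    _ ≤ ((1 + 20 * u) * (1 - u)) * ((1 - 20 * u) * (Λ + A)) :=
      mul_le_mul_of_nonneg_right h2 (mul_nonneg (by linarith) h4.le)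
    _ = ((1 - 400 * u ^ 2) * (Λ + A)) * (1 - u) := by ring
    _ < Λ * (1 - u) := mul_lt_mul_of_pos_right h5 (by linarith)

lemma params (Q P Λ n b t0 r M : ℕ) (hQ : 1 ≤ Q) (hb : 1 ≤ b) (hΛ : 16 * Q ^ 2 * (1 + 2 * P) ≤ Λ)
    (hr : r = 80 * Q) (hM : M = r * (Λ + 1)) :
    ∃ t1, ∀ t, t1 ≤ t → ∃ ρ, ∀ k, Q * b ≤ k → k ≤ 2 * (Q * b) → ∃ τ t' : ℕ, t0 ≤ t' ∧
      M * (ρ + 3 * k) + (Λ + 1) * t ≤ M * t ∧ τ * (2 * k - b) + 3 * k ≤ ρ ∧
      (1 + 1 / (r : ℝ)) * (t' + (r + 5 : ℕ) + (1 + 1 / (r : ℝ))) + 2 ≤ τ ∧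
      ∀ σ, 2 * k * σ ≤ (Λ + 1) * t + n * ((M + 2) * k) + 2 * k * (((t + 3 * k) / k + 1) * P) →
        (σ / r + 2) * (r + 5) ≤ Λ * t' := by
  obtain ⟨K, hK⟩ : ∃ K, K = Q * b := ⟨_, rfl⟩
  have hbK : b ≤ K := by rw [hK]; exact Nat.le_mul_of_pos_left _ hQ
  have hr0 : (0 : ℝ) < r := by rw [hr]; positivity
  obtain ⟨u, hu⟩ : ∃ u : ℝ, u = 1 / r := ⟨_, rfl⟩
  have u0 : 0 < u := by rw [hu]; positivity
  have u1 : u * r = 1 := by rw [hu]; field_simp
  have hQ' : (1 : ℝ) ≤ Q := by exact_mod_cast hQ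
  have hr' : (r : ℝ) = 80 * Q := by rw [hr]; push_cast; ring
  have u2 : 80 * Q * u = 1 := by rw [← hr', mul_comm]; exact u1
  have u3 : u ≤ 1 / 80 := by nlinarith
  have hc := coef (A := 1 + 2 * P) (Λ := Λ) u0 hQ' u2 (le_add_of_nonneg_right (by positivity))
    (by exact_mod_cast hΛ)
  obtain ⟨β, hβ⟩ : ∃ β : ℝ, β = (1 + u) * (1 - 20 * u) * (1 + 5 * u) * (Λ + (1 + 2 * P)) :=
    ⟨_, rfl⟩
  obtain ⟨E, hE⟩ : ∃ E : ℝ, E = r + 5 := ⟨_, rfl⟩
  obtain ⟨cb, hcb⟩ : ∃ c : ℝ, c = 2 + 2 * (E + 3) := ⟨_, rfl⟩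
  obtain ⟨cc, hcc⟩ : ∃ c : ℝ, c = 1 + 16 * K + cb * (4 * K) := ⟨_, rfl⟩
  obtain ⟨cd, hcd⟩ : ∃ c : ℝ, c = n * ((M + 2) * (2 * K)) + 16 * K * P := ⟨_, rfl⟩
  rw [← hβ] at hc
  obtain ⟨t1, ht1⟩ := exists_nat_ge (max ((2 * (2 * cd + 8 * K * E) + Λ * cc) / (Λ * (1 - u) - β))
    (2 * (cc + 8 * K * t0)))
  refine ⟨t1, fun t ht => ?_⟩
  have ht' : (t1 : ℝ) ≤ t := by exact_mod_cast ht
  have T1 : 2 * (2 * cd + 8 * K * E) + Λ * cc ≤ t * (Λ * (1 - u) - β) := by
    rw [← div_le_iff₀ (by linarith)]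
    exact (le_max_left _ _).trans (ht1.trans ht')
  have T2 : 2 * (cc + 8 * K * t0) ≤ t := (le_max_right _ _).trans (ht1.trans ht')
  have K0 : (1 : ℝ) ≤ K := by exact_mod_cast hb.trans hbK
  have E0 : 0 ≤ E := by rw [hE]; positivity
  have cb0 : 0 ≤ cb := by rw [hcb]; positivity
  have cd0 : 0 ≤ cd := by rw [hcd]; positivity
  have t00 : (0 : ℝ) ≤ t := by positivity
  have T3 : cc + 8 * K * t0 ≤ t * (1 - u) := by
    linarith [mul_le_mul_of_nonneg_left u3 t00]
  have uu : u * u ≤ u := mul_le_of_le_one_right u0.le (by linarith)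
  have uu0 : 0 ≤ u * u := mul_self_nonneg u
  have uE : E * u ≤ E := mul_le_of_le_one_right E0 (by linarith)
  have T4 : (0 : ℝ) ≤ 8 * K * t0 := by positivity
  have T5 : 0 ≤ cb * (4 * K) := by positivity
  have q1 : ((t / r : ℕ) : ℝ) ≤ t * u := by rw [hu, mul_one_div]; exact Nat.cast_div_le
  have q2 : t / r + 1 + 16 * K ≤ t := by
    have : ((t / r : ℕ) : ℝ) + 1 + 16 * K ≤ t := by linarith
    exact_mod_cast this
  obtain ⟨ρ, hρ⟩ : ∃ ρ, t = ρ + (t / r + 1 + 6 * K) := ⟨t - (t / r + 1 + 6 * K), by omega⟩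
  have hρ' : t * (1 - u) - 1 - 6 * K ≤ ρ := by
    have : (t : ℝ) = ρ + ((t / r : ℕ) + 1 + 6 * K) := by exact_mod_cast hρ
    linarith
  refine ⟨ρ, fun k k1 k2 => ?_⟩
  rw [← hK] at k1 k2
  have k1' : (K : ℝ) ≤ k := by exact_mod_cast k1
  have k2' : (k : ℝ) ≤ 2 * K := by exact_mod_cast k2
  obtain ⟨D, hD⟩ : ∃ D, 2 * k = D + b := ⟨2 * k - b, by omega⟩
  have hD' : 2 * (k : ℝ) = D + b := by exact_mod_cast hD
  have hD1 : (D : ℝ) ≤ 2 * k * (1 - 20 * u) := by
    have : (K : ℝ) = Q * b := by exact_mod_cast hK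
    have : 40 * u * k ≤ b := by
      calc 40 * u * k ≤ 40 * u * (2 * (Q * b)) := by
            apply mul_le_mul_of_nonneg_left _ (by positivity); linarith
        _ = (80 * Q * u) * b := by ring
        _ = b := by rw [u2, one_mul]
    linarith
  rw [show 2 * k - b = D by omega, ← hu]
  obtain ⟨τ, hτ⟩ : ∃ τ, τ = (ρ - 3 * k) / D := ⟨_, rfl⟩
  have τ1 : τ * D ≤ ρ - 3 * k := by rw [hτ]; exact Nat.div_mul_le_self _ _
  have τ2 : ρ - 3 * k < τ * D + D := by rw [hτ]; exact Nat.lt_div_mul_add (by omega)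
  have τ3 : (ρ : ℝ) ≤ τ * D + 10 * K := by exact_mod_cast (by omega : ρ ≤ τ * D + 10 * K)
  have τ0 : (0 : ℝ) ≤ τ := by positivity
  have τ4 : t * (1 - u) - 1 - 16 * K ≤ τ * (2 * k * (1 - 20 * u)) := by
    have := mul_le_mul_of_nonneg_left hD1 τ0
    linarith
  have W1 : 2 * k * (1 - 20 * u) ≤ 4 * (K : ℝ) := by
    linarith [mul_nonneg (show (0 : ℝ) ≤ k by positivity) u0.le]
  have W0 : 0 < 2 * k * (1 - 20 * u) := mul_pos (by linarith) (by linarith)
  have τ5 : cb ≤ τ := by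
    have := mul_le_mul_of_nonneg_left W1 τ0
    exact le_of_mul_le_mul_right (a := 4 * (K : ℝ)) (by linarith) (by linarith)
  have f0 : 0 ≤ ((τ : ℝ) - 2) / (1 + u) - E - (1 + u) := by
    rw [sub_sub, sub_nonneg, le_div_iff₀ (by linarith)]
    linarith
  obtain ⟨t', ht2⟩ : ∃ t', t' = ⌊((τ : ℝ) - 2) / (1 + u) - E - (1 + u)⌋₊ := ⟨_, rfl⟩
  have f1 : (t' : ℝ) ≤ ((τ : ℝ) - 2) / (1 + u) - E - (1 + u) := by
    rw [ht2]; exact Nat.floor_le f0
  have f2 : ((τ : ℝ) - 2) / (1 + u) - E - (1 + u) < t' + 1 := by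
    rw [ht2]; exact Nat.lt_floor_add_one _
  have f3 : (1 + u) * (t' + E + (1 + u)) + 2 ≤ τ := by
    have : (t' : ℝ) + E + (1 + u) ≤ (τ - 2) / (1 + u) := by linarith
    rw [le_div_iff₀ (by linarith)] at this
    linarith
  have f4 : τ - cb ≤ (1 + u) * t' := by
    have : ((τ : ℝ) - 2) / (1 + u) ≤ t' + 1 + E + (1 + u) := by linarith
    rw [div_le_iff₀ (by linarith)] at this
    linarith
  have f5 : t * (1 - u) - cc ≤ t' * ((1 + u) * (2 * k * (1 - 20 * u))) := by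
    have a1 := mul_le_mul_of_nonneg_right f4 W0.le
    have a2 := mul_le_mul_of_nonneg_left W1 cb0
    linarith
  have t'0 : (0 : ℝ) ≤ t' := by positivity
  refine ⟨τ, t', ?_, ?_, by omega, by push_cast; rw [← hE]; exact f3, fun σ hσ => ?_⟩
  · have a1 : (1 + u) * (2 * k * (1 - 20 * u)) ≤ 2 * (4 * (K : ℝ)) :=
      mul_le_mul (by linarith) W1 W0.le (by norm_num)
    have a2 := mul_le_mul_of_nonneg_left a1 t'0
    have : (t0 : ℝ) ≤ t' := le_of_mul_le_mul_right (a := 8 * (K : ℝ)) (by linarith) (by linarith)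
    exact_mod_cast this
  · have a1 : t ≤ r * (t / r + 1) := by
      have := Nat.lt_div_mul_add (a := t) (b := r) (by omega)
      rw [Nat.mul_succ, mul_comm]; omega
    have a2 : (Λ + 1) * t ≤ M * (t / r + 1) := by
      rw [hM, mul_comm r, mul_assoc]; exact Nat.mul_le_mul_left _ a1
    have a3 : M * (ρ + 3 * k + (t / r + 1)) ≤ M * t := Nat.mul_le_mul_left _ (by omega)
    rw [Nat.mul_add] at a3
    omega
  · have a1 : 2 * k * (((t + 3 * k) / k + 1) * P) ≤ 2 * (t + 8 * K) * P := by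
      have := Nat.mul_div_le (t + 3 * k) k
      calc 2 * k * (((t + 3 * k) / k + 1) * P) = 2 * (k * ((t + 3 * k) / k) + k) * P := by ring
        _ ≤ _ := Nat.mul_le_mul_right _ (by omega)
    have a2 : n * ((M + 2) * k) ≤ n * ((M + 2) * (2 * K)) :=
      Nat.mul_le_mul_left _ (Nat.mul_le_mul_left _ k2)
    have a3 : 2 * (k : ℝ) * σ ≤ (Λ + (1 + 2 * P)) * t + cd := by
      have : 2 * k * σ ≤ (Λ + 1) * t + n * ((M + 2) * (2 * K)) + 2 * (t + 8 * K) * P := by omega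
      have : 2 * (k : ℝ) * σ ≤ (Λ + 1) * t + n * ((M + 2) * (2 * K)) + 2 * (t + 8 * K) * P := by
        exact_mod_cast this
      rw [hcd]; linarith
    have a4 : ((σ / r : ℕ) : ℝ) * E ≤ σ * (1 + 5 * u) := by
      have b1 : ((σ / r : ℕ) : ℝ) ≤ σ * u := by rw [hu, mul_one_div]; exact Nat.cast_div_le
      calc _ ≤ σ * u * E := mul_le_mul_of_nonneg_right b1 E0
        _ = σ * (u * r + 5 * u) := by rw [hE]; ring
        _ = _ := by rw [u1]
    have w0 : 0 ≤ (1 + u) * (1 - 20 * u) := mul_nonneg (by linarith) (by linarith)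
    have w1 : (1 + u) * (1 - 20 * u) ≤ 2 := by linarith
    have a5 : (σ * (1 + 5 * u) + 2 * E) * ((1 + u) * (2 * k * (1 - 20 * u))) ≤
        β * t + 2 * (2 * cd + 8 * K * E) := by
      have b1 : (1 + 5 * u) * (2 * (k : ℝ) * σ) ≤ (1 + 5 * u) * ((Λ + (1 + 2 * P)) * t + cd) :=
        mul_le_mul_of_nonneg_left a3 (by linarith)
      have b2 : (1 + 5 * u) * cd + 4 * k * E ≤ 2 * cd + 8 * K * E := by
        linarith [mul_le_mul_of_nonneg_right u3 cd0, mul_le_mul_of_nonneg_right k2' E0]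
      have b3 : 0 ≤ (1 + 5 * u) * cd + 4 * k * E := by positivity
      calc _ = ((1 + u) * (1 - 20 * u)) * ((1 + 5 * u) * (2 * (k : ℝ) * σ) + 4 * k * E) := by ring
        _ ≤ ((1 + u) * (1 - 20 * u)) * ((1 + 5 * u) * ((Λ + (1 + 2 * P)) * t + cd) + 4 * k * E) :=
          mul_le_mul_of_nonneg_left (by linarith) w0
        _ = β * t + ((1 + u) * (1 - 20 * u)) * ((1 + 5 * u) * cd + 4 * k * E) := by rw [hβ]; ring
        _ ≤ _ := by linarith [mul_le_mul_of_nonneg_right w1 b3]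
    have a6 : σ * (1 + 5 * u) + 2 * E ≤ Λ * t' := by
      refine le_of_mul_le_mul_right (a5.trans ?_) (mul_pos (by linarith) W0)
      have := mul_le_mul_of_nonneg_left f5 (show (0 : ℝ) ≤ Λ by positivity)
      linarith
    have : (((σ / r : ℕ) : ℝ) + 2) * (r + 5) ≤ Λ * t' := by rw [← hE]; linarith
    exact_mod_cast this

end Pool.Agent.MP_6f70ff_gt.H18

end

-- part MP_6f70ff_gt.H18.Final
section

/-!
Amplification, tripods and the conclusion.
-/

set_option autoImplicit false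

namespace Pool.Agent.MP_6f70ff_gt.H18

namespace Geo

variable {V : Type} (X : Geo V)

/-- configurations at arbitrarily large scales -/
def Far (Λ n : ℕ) : Prop := ∀ t0, ∃ t, t0 ≤ t ∧ X.Cfg (Λ * t) n t

variable {X}

lemma RI.step (h : X.RI) {P ρ0 : ℕ} (hP : X.Pk P ρ0) (o : V) :
    ∃ Λ1, ∀ Λ, Λ1 ≤ Λ → ∀ n, X.Far (Λ + 1) n → X.Far Λ n := by
  obtain ⟨Q, hQ, hs⟩ := hP.slow o
  refine ⟨16 * Q ^ 2 * (1 + 2 * P), fun Λ hΛ n hF t0 => ?_⟩
  obtain ⟨r, hr⟩ : ∃ r, r = 80 * Q := ⟨_, rfl⟩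
  have hr0 : (80 : ℝ) ≤ r := by exact_mod_cast (by omega : 80 ≤ r)
  have hC : (1 : ℝ) < 1 + 1 / r := lt_add_of_pos_right _ (by positivity)
  obtain ⟨K, hK⟩ := h _ hC
  have h0 := hP.2.1
  obtain ⟨t1, h1⟩ := params Q P Λ n (K + ρ0) t0 r _ hQ (by omega) hΛ hr rfl
  obtain ⟨t, ht, hc⟩ := hF t1
  obtain ⟨ρ, h2⟩ := h1 t ht
  obtain ⟨k, k1, k2, k3⟩ := hs (K + ρ0) (by omega) ρ
  obtain ⟨τ, t', a1, a2, a3, a4, a5⟩ := h2 k k1 k2
  have hb : K + ρ0 ≤ Q * (K + ρ0) := Nat.le_mul_of_pos_left _ hQ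
  obtain ⟨N, σ, b1, b2, b3⟩ := hc.net hP (by omega) (by omega)
    (Nat.mul_pos (by omega) (by omega)) k3 a2 a3
  obtain ⟨f, f1, f2⟩ := hK k (by omega) N b1
  refine ⟨t', a1, (b3.back hC f f1 f2 (r := r) (by omega) ?_ a4).mono (a5 σ b2)⟩
  have e1 : 1 / (r : ℝ) * r = 1 := by field_simp
  have e2 : 1 / (r : ℝ) ≤ 1 / 80 := one_div_le_one_div_of_le (by norm_num) hr0
  push_cast
  nlinarith

lemma RI.bound (h : X.RI) (o : V) : ∃ n0, ∀ Λ n, X.Far Λ n → n ≤ n0 := by
  obtain ⟨P, ρ0, hP⟩ := h.pack o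
  obtain ⟨Λ1, h1⟩ := h.step hP o
  have h2 : ∀ i n, X.Far (Λ1 + i) n → X.Far Λ1 n := by
    intro i n
    induction i with
    | zero => exact id
    | succ i ih => exact fun hF => ih (h1 _ (by omega) n hF)
  refine ⟨P ^ (Λ1 + 1), fun Λ n hF => ?_⟩
  have h3 : X.Far (Λ1 + Λ) n := fun t0 => by
    obtain ⟨t, t1, t2⟩ := hF t0
    exact ⟨t, t1, t2.mono (Nat.mul_le_mul_right _ (by omega))⟩
  obtain ⟨t, t1, t2⟩ := h2 _ _ h3 ρ0
  exact t2.bound hP t1

variable (X)

/-- three points at distance `h` from `m` and at mutual distance at least `h` -/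
def Tri (h : ℕ) (m : V) : Prop := ∃ A : Fin 3 → V, (∀ i, X.d m (A i) = h) ∧
  ∀ i j, i ≠ j → h ≤ X.d (A i) (A j)

variable {X}

lemma Tri.move {h : ℕ} {m : V} (H : X.Tri h m) (m' : V) : X.Tri h m' := by
  obtain ⟨g, hg, rfl⟩ := X.trans m m'
  obtain ⟨A, a1, a2⟩ := H
  exact ⟨fun i => g (A i), fun i => by rw [hg, a1], fun i j hij => by rw [hg]; exact a2 i j hij⟩

lemma Tri.branch {h t L s : ℕ} (γ : ℕ → V) (hγ : ∀ a b, a ≤ b → b ≤ L → X.d (γ a) (γ b) + a = b)
    (hs : s ≤ L) (H : X.Tri h (γ s)) (ht : 4 * t ≤ h) :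
    ∃ y, X.d (γ s) y = h ∧ ∀ i ≤ L, t ≤ X.d y (γ i) := by
  obtain ⟨A, a1, a2⟩ := H
  by_contra hc
  push Not at hc
  choose p p1 p2 using fun i => hc (A i) (a1 i)
  have dd : ∀ a ≤ L, ∀ b ≤ L, X.d (γ a) (γ b) + a = b ∨ X.d (γ a) (γ b) + b = a := by
    intro a ha b hb
    rcases le_total a b with e | e
    · exact Or.inl (hγ a b e hb)
    · rw [X.symm]; exact Or.inr (hγ b a e ha)
  have k1 : ∀ i, X.d (γ s) (γ (p i)) < h + t ∧ h < X.d (γ s) (γ (p i)) + t := fun i => by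
    have := X.tri (γ s) (A i) (γ (p i))
    have b := X.tri (γ s) (γ (p i)) (A i)
    rw [X.symm (γ (p i))] at b
    have := p2 i
    have := a1 i
    omega
  have k2 : ∀ i j, i ≠ j → h < X.d (γ (p i)) (γ (p j)) + 2 * t := fun i j hij => by
    have := a2 i j hij
    have := X.tri (A i) (γ (p i)) (A j)
    have b := X.tri (γ (p i)) (γ (p j)) (A j)
    rw [X.symm (γ (p j))] at b
    have := p2 i
    have := p2 j
    omega
  have := k1 0
  have := k1 1
  have := k1 2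
  have := k2 0 1 (by decide)
  have := k2 0 2 (by decide)
  have := k2 1 2 (by decide)
  have := dd s hs _ (p1 0)
  have := dd s hs _ (p1 1)
  have := dd s hs _ (p1 2)
  have := dd _ (p1 0) _ (p1 1)
  have := dd _ (p1 0) _ (p1 2)
  have := dd _ (p1 1) _ (p1 2)
  omega

lemma exists_long [Infinite V] (z : V) (L : ℕ) :
    ∃ γ : ℕ → V, γ 0 = z ∧ ∀ a b, a ≤ b → b ≤ L → X.d (γ a) (γ b) + a = b := by
  obtain ⟨x, hx⟩ := Infinite.exists_notMem_finset (X.ball z L)
  rw [mem_ball] at hx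
  obtain ⟨γ, h0, _, h2⟩ := X.exists_geod z x
  exact ⟨γ, h0, fun a b hab hb => h2 a b hab (by omega)⟩

lemma far_of_tri [Infinite V] (H : ∀ h0, ∃ h, h0 ≤ h ∧ ∃ m, X.Tri h m) (n : ℕ) :
    X.Far (7 * (3 * n + 1)) n := by
  intro t0
  obtain ⟨h, h1, z, h2⟩ := H (4 * t0 + 4)
  obtain ⟨t, ht⟩ : ∃ t, t = h / 4 := ⟨_, rfl⟩
  obtain ⟨γ, g0, g1⟩ := exists_long (X := X) z (3 * h * n)
  have pos : ∀ j : Fin n, 3 * h * (j + 1) ≤ 3 * h * n := fun j => Nat.mul_le_mul_left _ j.2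
  choose y y1 y2 using fun j : Fin n =>
    Tri.branch (t := t) γ g1 (pos j) (h2.move _) (by omega)
  have gap : ∀ i j : Fin n, i ≠ j → 3 * h ≤ X.d (γ (3 * h * (i + 1))) (γ (3 * h * (j + 1))) := by
    have : ∀ i j : Fin n, i < j → 3 * h ≤ X.d (γ (3 * h * (i + 1))) (γ (3 * h * (j + 1))) := by
      intro i j hij
      have a1 : 3 * h * (i + 1 + 1) ≤ 3 * h * (j + 1) :=
        Nat.mul_le_mul_left _ (Nat.succ_le_succ hij)
      rw [Nat.mul_succ] at a1
      have := g1 (3 * h * (i + 1)) _ (by omega) (pos j)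
      omega
    intro i j hij
    rcases lt_or_gt_of_ne hij with e | e
    · exact this i j e
    · rw [X.symm]; exact this j i e
  have near : ∀ i j : Fin n, i ≠ j → ∀ v, X.d (γ (3 * h * (j + 1))) v ≤ h → h ≤ X.d (y i) v := by
    intro i j hij v hv
    have := gap i j hij
    have := y1 i
    have := X.tri (γ (3 * h * (i + 1))) (y i) (γ (3 * h * (j + 1)))
    have b := X.tri (y i) v (γ (3 * h * (j + 1)))
    rw [X.symm v] at b
    omega
  refine ⟨t, by omega, z, y, fun i j hij => ?_, fun i => ?_, fun j => ?_⟩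
  · have := near i j hij (y j) (y1 j).le
    omega
  · have := y2 i 0 (Nat.zero_le _)
    rwa [g0] at this
  · have c1 : ∀ a ≤ 3 * h * n, X.Ch {v | ∀ i, i ≠ j → t ≤ X.d (y i) v} 1 z (γ a) a := by
      intro a
      induction a with
      | zero => intro ha; rw [← g0]; exact .refl fun i _ => y2 i 0 ha
      | succ a ih =>
        intro ha
        have := g1 a (a + 1) (by omega) ha
        exact .step (ih (by omega)) (fun i _ => y2 i _ ha) (by omega)
    have c2 := ch_geod (X := X) (γ (3 * h * (j + 1))) (y j) {v | ∀ i, i ≠ j → t ≤ X.d (y i) v}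
      (fun v hv i hij => by
        have := near i j hij v (by have := y1 j; omega)
        omega)
    refine ⟨_, ?_, (c1 _ (pos j)).trans c2⟩
    have := pos j
    have a1 : h * (3 * n + 1) ≤ 7 * t * (3 * n + 1) := Nat.mul_le_mul_right _ (by omega)
    rw [y1 j]
    nlinarith

lemma RI.no_tri [Infinite V] (h : X.RI) (o : V) : ∃ h0, ∀ s, h0 ≤ s → ∀ m, ¬ X.Tri s m := by
  by_contra hc
  push Not at hc
  obtain ⟨n0, hn⟩ := h.bound o
  have := hn _ _ (far_of_tri hc (n0 + 1))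
  omega

end Geo

end Pool.Agent.MP_6f70ff_gt.H18

end

-- part MP_6f70ff_gt.H18.Bridge
section

/-!
From graphs to integer metrics and back.
-/

set_option autoImplicit false

namespace Pool.Agent.MP_6f70ff_gt.H18

open Filter

namespace Geo

variable {V : Type} {X : Geo V}

lemma exists_line [Infinite V] (o : V) :
    ∃ γ : ℤ → V, ∀ i j, (X.d (γ i) (γ j) : ℤ) = |i - j| := by
  have h1 : ∀ L : ℕ, ∃ γ : ℤ → V, γ 0 = o ∧ ∀ i j : ℤ, |i| ≤ L → |j| ≤ L →
      (X.d (γ i) (γ j) : ℤ) = |i - j| := by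
    intro L
    obtain ⟨γ, _, h⟩ := exists_long (X := X) o (2 * L)
    obtain ⟨g, hg, e⟩ := X.trans (γ L) o
    refine ⟨fun i => g (γ (i + L).toNat), by simpa using e, fun i j hi hj => ?_⟩
    rw [abs_le] at hi hj
    simp only [hg]
    rcases le_total i j with c | c
    · have := h (i + L).toNat (j + L).toNat (by omega) (by omega)
      rw [abs_of_nonpos (by omega)]; omega
    · have := h (j + L).toNat (i + L).toNat (by omega) (by omega)
      rw [X.symm, abs_of_nonneg (by omega)]; omega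
  choose γ g0 g1 using h1
  have big : ∀ i : ℤ, ∀ᶠ L : ℕ in (hyperfilter ℕ : Filter ℕ), |i| ≤ L := fun i => by
    apply Nat.hyperfilter_le_atTop
    filter_upwards [eventually_ge_atTop i.natAbs] with L hL
    rw [Int.abs_eq_natAbs]; exact_mod_cast hL
  have h2 : ∀ i : ℤ, ∃ v ∈ {y | X.d o y ≤ i.natAbs},
      ∀ᶠ L : ℕ in (hyperfilter ℕ : Filter ℕ), γ L i = v := fun i => by
    rw [← Ultrafilter.eventually_exists_mem_iff (X.fin o _)]
    filter_upwards [big i] with L hL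
    refine ⟨_, ?_, rfl⟩
    have := g1 L 0 i (by simp) hL
    rw [g0, zero_sub, abs_neg, Int.abs_eq_natAbs] at this
    change X.d o (γ L i) ≤ i.natAbs
    omega
  choose σ _ s2 using h2
  refine ⟨σ, fun i j => ?_⟩
  obtain ⟨L, ⟨a1, a2⟩, a3, a4⟩ := (((big i).and (big j)).and ((s2 i).and (s2 j))).exists
  rw [← a3, ← a4]
  exact g1 L i j a1 a2

lemma RI.near_line [Infinite V] (h : X.RI) (o : V) : ∃ (γ : ℤ → V) (c : ℕ),
    (∀ i j, (X.d (γ i) (γ j) : ℤ) = |i - j|) ∧ ∀ v, ∃ i, X.d v (γ i) ≤ c := by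
  obtain ⟨γ, hγ⟩ := exists_line (X := X) o
  obtain ⟨c, hc⟩ := h.no_tri o
  refine ⟨γ, c, hγ, fun v => ?_⟩
  obtain ⟨i, hi⟩ : ∃ i, ∀ j, X.d v (γ i) ≤ X.d v (γ j) :=
    ⟨Function.argmin (fun i => X.d v (γ i)), fun j => Function.argmin_le (fun i => X.d v (γ i)) j⟩
  refine ⟨i, ?_⟩
  by_contra hlt
  obtain ⟨s, hs⟩ : ∃ s, s = X.d v (γ i) := ⟨_, rfl⟩
  have a1 : X.d (γ i) (γ (i - s)) = s := by
    have := hγ i (i - s)
    rw [sub_sub_cancel, abs_of_nonneg (by omega)] at this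
    omega
  have a2 : X.d (γ i) (γ (i + s)) = s := by
    have := hγ i (i + s)
    rw [abs_of_nonpos (by omega)] at this
    omega
  have a3 : s ≤ X.d (γ (i - s)) (γ (i + s)) := by
    have := hγ (i - s) (i + s)
    rw [abs_of_nonpos (by omega)] at this
    omega
  have a4 := hi (i - s)
  have a5 := hi (i + s)
  rw [← hs] at a4 a5
  refine hc s (by omega) (γ i) ⟨![v, γ (i - s), γ (i + s)], fun a => ?_, fun a b hab => ?_⟩
  · fin_cases a
    · simpa [X.symm v] using hs.symm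
    · exact a1
    · exact a2
  · fin_cases a <;> fin_cases b <;> first
      | exact absurd rfl hab
      | assumption
      | (rw [X.symm]; assumption)

lemma linear_of_near {γ : ℤ → V} {c : ℕ} (h1 : ∀ i j, (X.d (γ i) (γ j) : ℤ) = |i - j|)
    (h2 : ∀ v, ∃ i, X.d v (γ i) ≤ c) : ∃ e : ℕ, ∀ v r, (X.ball v r).card ≤ e * (r + 1) := by
  classical
  refine ⟨(2 * c + 2) * (X.ball (γ 0) c).card, fun v r => ?_⟩
  rw [X.card_ball v (γ 0)]
  have h3 : X.ball (γ 0) r ⊆ (Finset.Icc (-((r + c : ℕ) : ℤ)) (r + c : ℕ)).biUnion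
      (fun i => X.ball (γ i) c) := by
    intro p hp
    obtain ⟨i, hi⟩ := h2 p
    have a1 := X.tri (γ 0) p (γ i)
    have a2 := h1 0 i
    rw [zero_sub, abs_neg] at a2
    have a3 := X.mem_ball.1 hp
    have a4 : |i| ≤ (r + c : ℕ) := by omega
    simp only [Finset.mem_biUnion, Finset.mem_Icc, mem_ball]
    exact ⟨i, abs_le.1 a4, by rwa [X.symm]⟩
  refine (Finset.card_le_card h3).trans ((Finset.card_biUnion_le_card_mul _ _
    (X.ball (γ 0) c).card fun i _ => (X.card_ball _ _ c).le).trans ?_)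
  rw [mul_right_comm]
  apply Nat.mul_le_mul_right
  rw [Int.card_Icc]
  have : (2 * c + 2) * (r + 1) = 2 * (c * r) + 2 * c + 2 * r + 2 := by ring
  omega

end Geo

variable {V : Type} {G : SimpleGraph V}

lemma geo_mid (hc : G.Connected) (x y : V) (r : ℕ) (h : r ≤ G.dist x y) :
    ∃ z, G.dist x z = r ∧ G.dist z y + r = G.dist x y := by
  obtain ⟨p, hp⟩ := hc.exists_walk_length_eq_dist x y
  have a1 := G.dist_le (p.take r)
  have a2 := G.dist_le (p.drop r)
  rw [SimpleGraph.Walk.take_length] at a1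
  rw [SimpleGraph.Walk.drop_length] at a2
  have a3 : G.dist x y ≤ G.dist x (p.getVert r) + G.dist (p.getVert r) y := hc.dist_triangle
  exact ⟨p.getVert r, by omega, by omega⟩

lemma dist_iso_le (hc : G.Connected) (φ : G ≃g G) (x y : V) :
    G.dist (φ x) (φ y) ≤ G.dist x y := by
  obtain ⟨p, hp⟩ := hc.exists_walk_length_eq_dist x y
  have := G.dist_le (p.map φ.toHom)
  rwa [SimpleGraph.Walk.length_map, hp] at this

/-- the graph metric -/
noncomputable def toGeo (hc : G.Connected) (hf : ∀ v, (G.neighborSet v).Finite)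
    (ht : ∀ u v, ∃ φ : G ≃g G, φ u = v) : Geo V where
  d := G.dist
  refl _ := G.dist_self
  symm _ _ := G.dist_comm
  tri _ _ _ := hc.dist_triangle
  eq0 _ _ h := hc.dist_eq_zero_iff.1 h
  geo := geo_mid hc
  fin x r := by
    induction r with
    | zero =>
      refine (Set.finite_singleton x).subset fun y hy => ?_
      exact (hc.dist_eq_zero_iff.1 (Nat.le_zero.1 hy)).symm
    | succ r ih =>
      refine (ih.union (ih.biUnion fun z _ => hf z)).subset fun y hy => ?_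
      by_cases e : G.dist x y ≤ r
      · exact Or.inl e
      · obtain ⟨z, z1, z2⟩ := geo_mid hc x y r (by omega)
        have : G.dist x y ≤ r + 1 := hy
        exact Or.inr (Set.mem_biUnion z1.le (SimpleGraph.dist_eq_one_iff_adj.1 (by omega)))
  trans u v := by
    obtain ⟨φ, hφ⟩ := ht u v
    refine ⟨φ.toEquiv, fun x y => le_antisymm (dist_iso_le hc φ x y) ?_, hφ⟩
    simpa using dist_iso_le hc φ.symm (φ x) (φ y)

section
variable (hc : G.Connected) (hf : ∀ v, (G.neighborSet v).Finite)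
  (ht : ∀ u v, ∃ φ : G ≃g G, φ u = v)

lemma isNet_of_net {k : ℕ} {N : Set V} (h : (toGeo hc hf ht).Net k N) : IsNet G k N := by
  refine ⟨h.1, fun S hS hNS x hx => ?_⟩
  obtain ⟨u, hu, hd⟩ := h.2 x
  by_cases e : x = u
  · rwa [e]
  · exact absurd (hS x hx u (hNS hu) e) (not_le.2 hd)

lemma ch_walk {k : ℕ} {N : Set V} {u v : V} {s : ℕ} (h : (toGeo hc hf ht).Ch N (2 * k) u v s) :
    ∃ p : (netGraph G k N).Walk ⟨u, h.left⟩ ⟨v, h.right⟩, p.length ≤ s := by
  induction h with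
  | refl _ => exact ⟨.nil, le_rfl⟩
  | @step v w s h0 h1 h2 ih =>
    obtain ⟨p, hp⟩ := ih
    by_cases e : v = w
    · subst e; exact ⟨p, by omega⟩
    · exact ⟨p.concat (show (netGraph G k N).Adj ⟨v, h0.right⟩ ⟨w, h1⟩ from
        ⟨hc.pos_dist_of_ne e, h2⟩), by rw [SimpleGraph.Walk.length_concat]; omega⟩

lemma walk_ch {k : ℕ} {N : Set V} {u v : N} (p : (netGraph G k N).Walk u v) :
    (toGeo hc hf ht).Ch N (2 * k) u v p.length := by
  induction p with
  | nil => exact .refl (Subtype.prop _)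
  | cons h p ih =>
    rw [SimpleGraph.Walk.length_cons, add_comm]
    exact (Geo.Ch.single (Subtype.prop _) (Subtype.prop _) h.2).trans ih

lemma ri_of_sub (h : SubScaleInvariant G) : (toGeo hc hf ht).RI := by
  classical
  intro C hC
  by_contra hbad
  push Not at hbad
  let Bad : ℕ → Set V → Prop := fun k N => ∀ f : V → V,
    (∀ u v s, (toGeo hc hf ht).Ch N (2 * k) u v s →
      ((toGeo hc hf ht).d (f u) (f v) : ℝ) ≤ C * (s + 3)) →
    ∃ u ∈ N, ∃ v ∈ N, ∀ s, (toGeo hc hf ht).Ch N (2 * k) u v s →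
      C * ((toGeo hc hf ht).d (f u) (f v) + C) + 2 < (s : ℝ)
  have h1 : ∀ k, ∃ N, (1 ≤ k → (toGeo hc hf ht).Net k N) ∧
      ((∃ N, (toGeo hc hf ht).Net k N ∧ Bad k N) → Bad k N) := by
    intro k
    by_cases e : ∃ N, (toGeo hc hf ht).Net k N ∧ Bad k N
    · obtain ⟨N, n1, n2⟩ := e
      exact ⟨N, fun _ => n1, fun _ => n2⟩
    · by_cases hk : 1 ≤ k
      · obtain ⟨N, _, hN⟩ := Geo.exists_net (X := toGeo hc hf ht) hk (S := ∅) fun u hu => hu.elim
        exact ⟨N, fun _ => hN, fun a => absurd a e⟩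
      · exact ⟨∅, fun a => absurd a hk, fun a => absurd a e⟩
  choose N N1 N2 using h1
  have h2 := h N fun k hk => isNet_of_net hc hf ht (N1 k hk)
  have h3 := (h2.eventually (gt_mem_nhds (show (1 : ℝ) < min C 2 from lt_min hC (by norm_num)))).and
    (h2.eventually (lt_mem_nhds (show (0 : ℝ) < 1 by norm_num)))
  obtain ⟨K, hK⟩ := eventually_atTop.1 h3
  obtain ⟨k, hk, hb⟩ := hbad (K + 1)
  have hB := N2 k hb
  have hN := N1 k (by omega)
  obtain ⟨a1, a2⟩ := hK k (by omega)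
  unfold roughConst at a1 a2
  have hne : {C : ℝ | 0 < C ∧ ∃ f : V → N k, IsRoughIsometry G (netGraph G k (N k)) C f}.Nonempty := by
    by_contra e
    rw [Set.not_nonempty_iff_eq_empty.1 e, Real.sInf_empty] at a2
    exact lt_irrefl _ a2
  obtain ⟨D, ⟨D0, f, f1, f2⟩, D1⟩ := exists_lt_of_csInf_lt hne a1
  have D2 : D < C := D1.trans_le (min_le_left _ _)
  have D3 : D < 2 := D1.trans_le (min_le_right _ _)
  choose g hg using f2
  have hg1 : ∀ y, (netGraph G k (N k)).dist (f (g y)) y ≤ 1 := fun y => by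
    have : ((netGraph G k (N k)).dist (f (g y)) y : ℝ) < 2 := (hg y).trans D3
    have : (netGraph G k (N k)).dist (f (g y)) y < 2 := by exact_mod_cast this
    omega
  obtain ⟨o⟩ := hc.nonempty
  have conn : (netGraph G k (N k)).Connected := by
    have : Nonempty (N k) := ⟨f o⟩
    refine ⟨fun u v => ?_⟩
    obtain ⟨s, hs⟩ := hN.conn u.2 v.2
    obtain ⟨p, _⟩ := ch_walk hc hf ht hs
    exact ⟨p⟩
  have near : ∀ u v : N k, (netGraph G k (N k)).dist (f (g u)) (f (g v)) ≤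
      (netGraph G k (N k)).dist u v + 2 ∧ (netGraph G k (N k)).dist u v ≤
      (netGraph G k (N k)).dist (f (g u)) (f (g v)) + 2 := fun u v => by
    have b1 := conn.dist_triangle (u := f (g u)) (v := u) (w := f (g v))
    have b2 := conn.dist_triangle (u := u) (v := v) (w := f (g v))
    have b3 := conn.dist_triangle (u := u) (v := f (g u)) (w := v)
    have b4 := conn.dist_triangle (u := f (g u)) (v := f (g v)) (w := v)
    have b5 := hg1 u
    have b6 := hg1 v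
    rw [SimpleGraph.dist_comm (u := v)] at b2
    rw [SimpleGraph.dist_comm (u := u) (v := f (g u))] at b3
    omega
  obtain ⟨u, hu, v, hv, huv⟩ := hB (fun x => if hx : x ∈ N k then g ⟨x, hx⟩ else x) (by
    intro u v s hs
    obtain ⟨p, hp⟩ := ch_walk hc hf ht hs
    have b1 := (SimpleGraph.dist_le p).trans hp
    have b2 := (near ⟨u, hs.left⟩ ⟨v, hs.right⟩).1
    have b3 := (f1 (g ⟨u, hs.left⟩) (g ⟨v, hs.right⟩)).2
    have b4 : ((netGraph G k (N k)).dist (f (g ⟨u, hs.left⟩)) (f (g ⟨v, hs.right⟩)) : ℝ) ≤ s + 2 := by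
      exact_mod_cast (by omega)
    simp only [dif_pos hs.left, dif_pos hs.right]
    change (G.dist _ _ : ℝ) ≤ _
    have b5 := mul_le_mul_of_nonneg_left b4 D0.le
    have b6 : D * (s + 3) ≤ C * (s + 3) := mul_le_mul_of_nonneg_right D2.le (by positivity)
    linarith)
  obtain ⟨p, hp⟩ := conn.exists_walk_length_eq_dist ⟨u, hu⟩ ⟨v, hv⟩
  have b1 := huv _ (walk_ch hc hf ht p)
  simp only [dif_pos hu, dif_pos hv] at b1
  change C * ((G.dist _ _ : ℝ) + C) + 2 < _ at b1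
  have b2 := (near ⟨u, hu⟩ ⟨v, hv⟩).2
  have b3 := (f1 (g ⟨u, hu⟩) (g ⟨v, hv⟩)).1
  rw [sub_le_iff_le_add, inv_mul_le_iff₀ D0] at b3
  have b4 : (p.length : ℝ) ≤ (netGraph G k (N k)).dist (f (g ⟨u, hu⟩)) (f (g ⟨v, hv⟩)) + 2 := by
    exact_mod_cast (by omega)
  have b5 : D * ((G.dist (g ⟨u, hu⟩) (g ⟨v, hv⟩) : ℝ) + D) ≤
      C * ((G.dist (g ⟨u, hu⟩) (g ⟨v, hv⟩) : ℝ) + C) :=
    mul_le_mul D2.le (by linarith) (by positivity) (by linarith)
  linarith

end

end Pool.Agent.MP_6f70ff_gt.H18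

end
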