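import Pool.Agent.MP_6f70ff_gt.Proof
import Pool.Agent.MP_6f70ff_gt.Mg.H18_Bridge

/-!
Sub scale invariance is equivalent to an embedding into the integers with additive error one.
-/

set_option autoImplicit false

namespace Pool.Agent.MP_6f70ff_gt.H42

open Filter

variable {V : Type} {G : SimpleGraph V}

lemma net_cover {k : ℕ} (hk : 1 ≤ k) {N : Set V} (hN : IsNet G k N) (x : V) :
    ∃ y ∈ N, G.dist x y < k := by
  by_contra h0
  push Not at h0
  have hx : x ∉ N := fun h => by have := h0 x h; simp at this; omega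
  apply hx
  refine hN.2 (y := insert x N) ?_ (Set.subset_insert _ _) (Set.mem_insert _ _)
  rintro u (rfl | hu) v (rfl | hv) huv
  · exact absurd rfl huv
  · exact h0 v hv
  · rw [G.dist_comm]; exact h0 u hu
  · exact hN.1 u hu v hv huv

section Up
variable {f : V → ℤ}

/-- the values of `f` are unbounded in both directions -/
lemma unbounded (hf : ∀ x y, |(|f x - f y|) - (G.dist x y : ℤ)| ≤ 1) {γ : ℤ → V}
    (hγ : ∀ i j, (G.dist (γ i) (γ j) : ℤ) = |i - j|) (m : ℤ) :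
    ∃ x y, f x ≤ m ∧ m ≤ f y := by
  obtain ⟨n, hn, hn2⟩ : ∃ n : ℤ, 2 ≤ n ∧ |m - f (γ 0)| + 1 ≤ n :=
    ⟨|m - f (γ 0)| + 2, by have := abs_nonneg (m - f (γ 0)); omega, by omega⟩
  have a1 := hf (γ n) (γ 0)
  have a2 := hf (γ (-n)) (γ 0)
  have a3 := hf (γ n) (γ (-n))
  rw [hγ] at a1 a2 a3
  rw [sub_zero, abs_of_nonneg (a := n) (by omega)] at a1
  rw [sub_zero, abs_neg, abs_of_nonneg (a := n) (by omega)] at a2
  rw [abs_of_nonneg (a := n - -n) (by omega)] at a3
  have b1 := abs_le.1 a1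
  have b2 := abs_le.1 a2
  have b3 := abs_le.1 a3
  have b4 := le_abs_self (m - f (γ 0))
  have b5 := neg_abs_le (m - f (γ 0))
  rcases abs_cases (f (γ n) - f (γ 0)) with c1 | c1 <;>
    rcases abs_cases (f (γ (-n)) - f (γ 0)) with c2 | c2 <;>
    rcases abs_cases (f (γ n) - f (γ (-n))) with c3 | c3
  all_goals first
    | exact ⟨γ (-n), γ n, by omega, by omega⟩
    | exact ⟨γ n, γ (-n), by omega, by omega⟩

lemma dense_walk (hf : ∀ x y, |(|f x - f y|) - (G.dist x y : ℤ)| ≤ 1) (m : ℤ) {x y : V}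
    (p : G.Walk x y) (hx : f x ≤ m + 1) (hy : m ≤ f y) : ∃ z, f z = m ∨ f z = m + 1 := by
  induction p with
  | @nil u => exact ⟨u, by omega⟩
  | @cons u v w huv p ih =>
    by_cases h : m ≤ f u
    · exact ⟨u, by omega⟩
    · refine ih ?_ hy
      have a := hf u v
      rw [SimpleGraph.dist_eq_one_iff_adj.2 huv] at a
      have b := abs_le.1 a
      have c := neg_abs_le (f u - f v)
      omega

lemma dense (hc : G.Connected) (hf : ∀ x y, |(|f x - f y|) - (G.dist x y : ℤ)| ≤ 1) {γ : ℤ → V}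
    (hγ : ∀ i j, (G.dist (γ i) (γ j) : ℤ) = |i - j|) (m : ℤ) : ∃ z, f z = m ∨ f z = m + 1 := by
  obtain ⟨x, y, hx, hy⟩ := unbounded hf hγ m
  obtain ⟨p⟩ := hc x y
  exact dense_walk hf m p (by omega) hy

variable (hc : G.Connected) (hf : ∀ x y, |(|f x - f y|) - (G.dist x y : ℤ)| ≤ 1)
  {k : ℕ} (hk : 5 ≤ k) {N : Set V} (hN : IsNet G k N)
include hf

lemma bounds {x y : V} (h : f x ≤ f y) :
    f y - f x ≤ G.dist x y + 1 ∧ (G.dist x y : ℤ) ≤ f y - f x + 1 := by
  have a := abs_le.1 (hf x y)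
  rw [abs_of_nonpos (by omega)] at a
  omega

include hk hN

omit hk in
lemma gap {u v : V} (hu : u ∈ N) (hv : v ∈ N) (h : f u ≤ f v) : u = v ∨ f u + k ≤ f v + 1 := by
  by_cases e : u = v
  · exact Or.inl e
  · have a := hN.1 u hu v hv e
    have b := bounds hf h
    omega

omit hk in
lemma gap_lt {u v : V} (hu : u ∈ N) (hv : v ∈ N) (h : f u < f v) : f u + k ≤ f v + 1 := by
  rcases gap hf hN hu hv h.le with e | e
  · rw [e] at h; omega
  · exact e

include hc

lemma adj_of_cons {u v : N} (h : f u < f v) (hw : ∀ w ∈ N, f w ≤ f u ∨ f v ≤ f w) :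
    (netGraph G k N).Adj u v := by
  have hne : u.1 ≠ v.1 := fun e => by rw [e] at h; omega
  refine ⟨hc.pos_dist_of_ne hne, ?_⟩
  by_contra hL
  obtain ⟨z, z1, z2⟩ := H18.geo_mid hc u.1 v.1 k (by omega)
  obtain ⟨w, hw1, hw2⟩ := net_cover (by omega) hN z
  have a1 := abs_le.1 (hf u z)
  have a2 := abs_le.1 (hf z v)
  have a3 := abs_le.1 (hf z w)
  have a4 := bounds hf h.le
  have b1 := neg_abs_le (f u - f z)
  have b2 := neg_abs_le (f z - f v)
  have b3 := neg_abs_le (f z - f w)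
  have b4 := le_abs_self (f z - f w)
  rcases hw w hw1 with c | c
  · rcases gap hf hN hw1 u.2 c with e | e
    · rw [e, G.dist_comm] at hw2; omega
    · omega
  · rcases gap hf hN v.2 hw1 c with e | e
    · rw [← e] at hw2; omega
    · omega

lemma adj_mid {u v w : N} (huv : (netGraph G k N).Adj u v) (h1 : f u < f w) (h2 : f w < f v) :
    (netGraph G k N).Adj u w ∧ (netGraph G k N).Adj w v := by
  have a := bounds hf (h1.trans h2).le
  have b := huv.2
  have c1 := gap_lt hf hN u.2 w.2 h1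
  have c2 := gap_lt hf hN w.2 v.2 h2
  constructor
  · refine adj_of_cons hc hf hk hN h1 fun z hz => ?_
    by_contra hh
    push Not at hh
    have := gap_lt hf hN u.2 hz hh.1
    have := gap_lt hf hN hz w.2 hh.2
    omega
  · refine adj_of_cons hc hf hk hN h2 fun z hz => ?_
    by_contra hh
    push Not at hh
    have := gap_lt hf hN w.2 hz hh.1
    have := gap_lt hf hN hz v.2 hh.2
    omega

lemma net_geo {γ : ℤ → V} (hγ : ∀ i j, (G.dist (γ i) (γ j) : ℤ) = |i - j|) :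
    ∃ σ : ℤ → N, (∀ i j, ((netGraph G k N).dist (σ i) (σ j) : ℤ) = |i - j|) ∧
      ∀ y, ∃ i, σ i = y ∨
        ((netGraph G k N).Adj (σ i) y ∧ (netGraph G k N).Adj (σ (i + 1)) y) := by
  have unb : ∀ m : ℤ, ∃ u ∈ N, ∃ v ∈ N, f u ≤ m ∧ m < f v := by
    intro m
    obtain ⟨x, -, hx, -⟩ := unbounded hf hγ (m - k)
    obtain ⟨-, y, -, hy⟩ := unbounded hf hγ (m + k + 1)
    obtain ⟨u, hu, hu2⟩ := net_cover (by omega) hN x
    obtain ⟨v, hv, hv2⟩ := net_cover (by omega) hN y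
    have a1 := abs_le.1 (hf x u)
    have a2 := abs_le.1 (hf y v)
    have b1 := neg_abs_le (f x - f u)
    have b2 := le_abs_self (f y - f v)
    exact ⟨u, hu, v, hv, by omega, by omega⟩
  have nxt : ∀ m : ℤ, ∃ u v : N, f u ≤ m ∧ m < f v ∧ (netGraph G k N).Adj u v := by
    intro m
    obtain ⟨u0, hu0, v0, hv0, h1, h2⟩ := unb m
    obtain ⟨a, ⟨u, hu, hua, rfl⟩, ha⟩ := Int.exists_greatest_of_bdd
      (P := fun a => ∃ u ∈ N, f u ≤ m ∧ f u = a) ⟨m, by rintro _ ⟨u, -, h, rfl⟩; exact h⟩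
      ⟨_, u0, hu0, h1, rfl⟩
    obtain ⟨b, ⟨v, hv, hvb, rfl⟩, hb⟩ := Int.exists_least_of_bdd
      (P := fun a => ∃ v ∈ N, m < f v ∧ f v = a) ⟨m, by rintro _ ⟨u, -, h, rfl⟩; exact h.le⟩
      ⟨_, v0, hv0, h2, rfl⟩
    refine ⟨⟨u, hu⟩, ⟨v, hv⟩, hua, hvb, adj_of_cons hc hf hk hN (by simp only; omega) ?_⟩
    intro w hw
    by_cases c : f w ≤ m
    · exact Or.inl (ha _ ⟨w, hw, c, rfl⟩)
    · exact Or.inr (hb _ ⟨w, hw, by omega, rfl⟩)
  have ex : ∀ m : ℤ, ∃ z, (∃ u v : N, f u ≤ m ∧ (netGraph G k N).Adj u v ∧ f v = z) ∧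
      ∀ w, (∃ u v : N, f u ≤ m ∧ (netGraph G k N).Adj u v ∧ f v = w) → w ≤ z := by
    intro m
    obtain ⟨u0, v0, h1, -, h3⟩ := nxt m
    refine Int.exists_greatest_of_bdd ⟨m + 2 * k + 1, ?_⟩ ⟨_, u0, v0, h1, h3, rfl⟩
    rintro _ ⟨u, v, h1, h2, rfl⟩
    have a1 := abs_le.1 (hf u v)
    have b1 := neg_abs_le (f u - f v)
    have := h2.2
    omega
  choose F hF hmax using ex
  have hlt : ∀ m, m < F m := fun m => by
    obtain ⟨u, v, h1, h2, h3⟩ := nxt m
    exact h2.trans_le (hmax m _ ⟨u, v, h1, h3, rfl⟩)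
  have hle : ∀ m, F m ≤ m + ((2 * k + 1 : ℕ) : ℤ) := fun m => by
    obtain ⟨u, v, h1, h2, h3⟩ := hF m
    have a1 := abs_le.1 (hf u v)
    have b1 := neg_abs_le (f u - f v)
    have := h2.2
    push_cast
    omega
  have hmono : Monotone F := fun a b hab => by
    obtain ⟨u, v, h1, h2, h3⟩ := hF a
    exact hmax b _ ⟨u, v, h1.trans hab, h2, h3⟩
  obtain ⟨β, hβ⟩ := exists_biorbit F (2 * k + 1) hlt hle
  have hmem : ∀ n, ∃ v : N, f v = β n := fun n => by
    obtain ⟨-, v, -, -, h3⟩ := hF (β (n - 1))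
    exact ⟨v, by rw [h3, ← hβ, sub_add_cancel]⟩
  choose σ hσ using hmem
  have inj : ∀ u v : N, f u = f v → u = v := fun u v h => by
    rcases gap hf hN u.2 v.2 h.le with e | e
    · exact Subtype.ext e
    · omega
  have hadj : ∀ n, (netGraph G k N).Adj (σ n) (σ (n + 1)) := fun n => by
    obtain ⟨u, v, h1, h2, h3⟩ := hF (β n)
    obtain rfl : v = σ (n + 1) := inj _ _ (by rw [h3, hσ, hβ])
    rcases h1.lt_or_eq with c | c
    · exact (adj_mid hc hf hk hN h2 (by rw [hσ]; exact c) (by rw [hσ, h3]; exact hlt _)).2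
    · rwa [← inj u (σ n) (by rw [c, hσ])]
  refine ⟨σ, fun i j => (geodesic _ (fun u : N => f u) F hmono hlt
    (fun a b hab => hmax _ _ ⟨a, b, le_rfl, hab, rfl⟩) σ hadj
    (fun n => by simp only [hσ, hβ]) i j).2, fun y => ?_⟩
  have lin : ∀ (m : ℕ) (i : ℤ), β i + m ≤ β (i + m) := by
    intro m i
    induction m with
    | zero => simp
    | succ m ih =>
      have := hlt (β (i + m))
      rw [← hβ] at this
      push_cast
      rw [← add_assoc i]
      omega
  obtain ⟨i, hi, hi2⟩ := Int.exists_greatest_of_bdd (P := fun i => β i ≤ f y)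
    ⟨(f y - β 0).natAbs, fun z hz => by
      by_contra h
      have := lin z.toNat 0
      rw [show (0 : ℤ) + z.toNat = z by omega] at this
      omega⟩
    ⟨-((β 0 - f y).natAbs : ℤ), by
      have := lin (β 0 - f y).natAbs (-((β 0 - f y).natAbs : ℤ))
      rw [neg_add_cancel] at this
      omega⟩
  refine ⟨i, ?_⟩
  have h3 : f y < β (i + 1) := by
    by_contra h; have := hi2 (i + 1) (not_lt.mp h); omega
  rcases hi.lt_or_eq with h4 | h4
  · have := adj_mid hc hf hk hN (hadj i) (w := y) (by rw [hσ]; exact h4) (by rw [hσ]; exact h3)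
    exact Or.inr ⟨this.1, this.2.symm⟩
  · exact Or.inl (inj _ _ (by rw [hσ, h4]))

lemma roughConst_eq_one {γ : ℤ → V} (hγ : ∀ i j, (G.dist (γ i) (γ j) : ℤ) = |i - j|) :
    roughConst G (netGraph G k N) = 1 := by
  obtain ⟨σ, h1, h2⟩ := net_geo hc hf hk hN hγ
  have mem : ∀ C : ℝ, 1 < C →
      C ∈ {C : ℝ | 0 < C ∧ ∃ g : V → N, IsRoughIsometry G (netGraph G k N) C g} := by
    intro C hC
    refine ⟨by linarith, fun x => σ (f x), fun x y => ?_, fun y => ?_⟩
    · have e := h1 (f x) (f y)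
      have a := abs_le.1 (hf x y)
      have e1 : ((netGraph G k N).dist (σ (f x)) (σ (f y)) : ℝ) ≤ G.dist x y + 1 := by
        exact_mod_cast (by omega : (netGraph G k N).dist (σ (f x)) (σ (f y)) ≤ G.dist x y + 1)
      have e2 : (G.dist x y : ℝ) ≤ (netGraph G k N).dist (σ (f x)) (σ (f y)) + 1 := by
        exact_mod_cast (by omega : G.dist x y ≤ (netGraph G k N).dist (σ (f x)) (σ (f y)) + 1)
      have a0 : (0 : ℝ) ≤ (netGraph G k N).dist (σ (f x)) (σ (f y)) := by positivity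
      have a1 : C⁻¹ ≤ 1 := inv_le_one_of_one_le₀ hC.le
      constructor <;> nlinarith
    · obtain ⟨i, hi⟩ := h2 y
      obtain ⟨z, hz⟩ := dense hc hf hγ i
      refine ⟨z, lt_of_le_of_lt ?_ hC⟩
      have : (netGraph G k N).dist (σ (f z)) y ≤ 1 := by
        rcases hi with rfl | ⟨a1, a2⟩
        · have := h1 (f z) i
          rcases hz with e | e
          · rw [e] at this ⊢; simp
          · rw [e] at this ⊢; rw [add_sub_cancel_left, abs_one] at this; omega
        · rcases hz with e | e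
          · rw [e, SimpleGraph.dist_eq_one_iff_adj.2 a1]
          · rw [e, SimpleGraph.dist_eq_one_iff_adj.2 a2]
      exact_mod_cast this
  have low : ∀ C ∈ {C : ℝ | 0 < C ∧ ∃ g : V → N, IsRoughIsometry G (netGraph G k N) C g},
      1 ≤ C := by
    rintro C ⟨hC, g, hg, -⟩
    by_contra h
    push Not at h
    obtain ⟨n, hn⟩ := exists_nat_gt (2 / (1 - C))
    obtain ⟨a1, a2⟩ := hg (γ n) (γ 0)
    have e : G.dist (γ n) (γ 0) = n := by have := hγ n 0; simp at this; exact this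
    rw [e] at a1 a2
    rw [div_lt_iff₀ (by linarith)] at hn
    set d : ℝ := (((netGraph G k N).dist (g (γ n)) (g (γ 0)) : ℕ) : ℝ)
    have d0 : 0 ≤ d := by positivity
    have a3 : d ≤ C⁻¹ * d := le_mul_of_one_le_left d0 ((one_le_inv₀ hC).mpr h.le)
    nlinarith
  apply le_antisymm
  · exact le_of_forall_gt_imp_ge_of_dense fun C hC => csInf_le ⟨1, low⟩ (mem C hC)
  · exact le_csInf ⟨2, mem 2 one_lt_two⟩ low

end Up

theorem sub_of_map (hc : G.Connected) {γ : ℤ → V}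
    (hγ : ∀ i j, (G.dist (γ i) (γ j) : ℤ) = |i - j|) {f : V → ℤ}
    (hf : ∀ x y, |(|f x - f y|) - (G.dist x y : ℤ)| ≤ 1) : SubScaleInvariant G := by
  intro N hN
  refine tendsto_const_nhds.congr' ?_
  filter_upwards [eventually_ge_atTop 5] with k hk
  exact (roughConst_eq_one hc hf hk (hN k (by omega)) hγ).symm

section Down
variable {γ : ℤ → V} {c : ℕ} (hγ : ∀ i j, (G.dist (γ i) (γ j) : ℤ) = |i - j|)
  (hnear : ∀ v, ∃ i, G.dist v (γ i) ≤ c)
include hγ

lemma grid_dist (k : ℕ) (i j : ℤ) :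
    (G.dist (γ (i * (k + 1))) (γ (j * (k + 1))) : ℤ) = |i - j| * (k + 1) := by
  rw [hγ, ← sub_mul, abs_mul, abs_of_nonneg (a := (k : ℤ) + 1) (by omega)]

lemma grid_path {k : ℕ} (hk : 1 ≤ k) : ∃ pos : Set.range (fun i : ℤ => γ (i * (k + 1))) → ℤ,
    ∀ u v, ((netGraph G k (Set.range fun i : ℤ => γ (i * (k + 1)))).dist u v : ℤ)
      = |pos u - pos v| := by
  have ex : ∀ u : Set.range (fun i : ℤ => γ (i * (k + 1))), ∃ i : ℤ, γ (i * (k + 1)) = u :=
    fun u => u.2
  choose pos hpos using ex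
  have inj : ∀ i j : ℤ, γ (i * (k + 1)) = γ (j * (k + 1)) → i = j := by
    intro i j h
    have := grid_dist hγ k i j
    rw [h, G.dist_self] at this
    have h2 : |i - j| = 0 := (mul_eq_zero.1 this.symm).resolve_right (by omega)
    have := abs_eq_zero.1 h2
    omega
  let σ : ℤ → Set.range (fun i : ℤ => γ (i * (k + 1))) := fun i => ⟨_, i, rfl⟩
  have hp : ∀ i, pos (σ i) = i := fun i => inj _ _ (hpos (σ i))
  have hs : ∀ u, σ (pos u) = u := fun u => Subtype.ext (hpos u)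
  refine ⟨pos, fun u v => ?_⟩
  have := (geodesic (netGraph G k (Set.range fun i : ℤ => γ (i * (k + 1)))) pos (fun x => x + 1)
    (fun _ _ h => by simpa using h) (fun x => by omega) ?_ σ ?_ (fun n => by simp only [hp])
    (pos u) (pos v)).2
  · rwa [hs, hs] at this
  · intro a b hab
    have h1 := grid_dist hγ k (pos a) (pos b)
    rw [hpos, hpos] at h1
    have h2 : (G.dist a.1 b.1 : ℤ) ≤ 2 * k := by exact_mod_cast hab.2
    have h3 := neg_abs_le (pos a - pos b)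
    by_contra h4
    have h5 : 2 ≤ |pos a - pos b| := by omega
    nlinarith
  · intro n
    have h1 := grid_dist hγ k n (n + 1)
    have h2 : |n - (n + 1)| = 1 := by simp
    rw [h2] at h1
    change 0 < G.dist (γ (n * (k + 1))) (γ ((n + 1) * (k + 1))) ∧
      G.dist (γ (n * (k + 1))) (γ ((n + 1) * (k + 1))) ≤ 2 * k
    omega

include hnear

lemma grid_net (hc : G.Connected) {k : ℕ} (hk : 2 * c + 2 ≤ k) :
    IsNet G k (Set.range fun i : ℤ => γ (i * (k + 1))) := by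
  refine ⟨?_, fun S hS hsub x hx => ?_⟩
  · rintro _ ⟨i, rfl⟩ _ ⟨j, rfl⟩ hne
    have h1 := grid_dist hγ k i j
    have h2 : 1 ≤ |i - j| := Int.one_le_abs (sub_ne_zero.2 fun e => hne (by rw [e]))
    have : (k : ℤ) ≤ G.dist (γ (i * (k + 1))) (γ (j * (k + 1))) := by nlinarith
    exact_mod_cast this
  · obtain ⟨i, hi⟩ := hnear x
    obtain ⟨j, hj⟩ : ∃ j : ℤ, 2 * |i - j * (k + 1)| ≤ k + 1 := by
      have h5 := Int.emod_lt_of_pos i (by omega : (0 : ℤ) < k + 1)
      have h6 := Int.emod_nonneg i (by omega : (k : ℤ) + 1 ≠ 0)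
      have h7 := Int.emod_add_mul_ediv i (k + 1)
      by_cases h8 : 2 * (i % (k + 1)) ≤ k + 1
      · refine ⟨i / (k + 1), ?_⟩
        rw [show i - i / (k + 1) * (k + 1) = i % (k + 1) by linarith, abs_of_nonneg h6]
        exact h8
      · refine ⟨i / (k + 1) + 1, ?_⟩
        rw [show i - (i / (k + 1) + 1) * (k + 1) = i % (k + 1) - (k + 1) by linarith,
          abs_of_nonpos (by omega)]
        omega
    have h1 := hγ i (j * (k + 1))
    have h2 : G.dist x (γ (j * (k + 1))) ≤ G.dist x (γ i) + G.dist (γ i) (γ (j * (k + 1))) :=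
      hc.dist_triangle
    by_contra h
    have h3 := hS x hx (γ (j * (k + 1))) (hsub ⟨j, rfl⟩) fun e => h ⟨j, e.symm⟩
    omega

lemma approx (hc : G.Connected) (hfin : ∀ v, (G.neighborSet v).Finite)
    (ht : ∀ u v, ∃ φ : G ≃g G, φ u = v) (h : SubScaleInvariant G) (n : ℕ) :
    ∃ φ : V → ℤ, ∀ x y, G.dist x y ≤ n → |(|φ x - φ y|) - (G.dist x y : ℤ)| ≤ 1 := by
  classical
  have h1 : ∀ k, ∃ N, (1 ≤ k → IsNet G k N) ∧
      (2 * c + 2 ≤ k → N = Set.range fun i : ℤ => γ (i * (k + 1))) := by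
    intro k
    by_cases e : 2 * c + 2 ≤ k
    · exact ⟨_, fun _ => grid_net hγ hnear hc e, fun _ => rfl⟩
    · by_cases hk : 1 ≤ k
      · obtain ⟨N, _, hN⟩ := H18.Geo.exists_net (X := H18.toGeo hc hfin ht) hk (S := ∅)
          fun u hu => hu.elim
        exact ⟨N, fun _ => H18.isNet_of_net hc hfin ht hN, fun a => absurd a e⟩
      · exact ⟨∅, fun a => absurd a hk, fun a => absurd a e⟩
  choose N N1 N2 using h1
  have h2 := h N N1
  have hε : (0 : ℝ) < 1 / (n + 4) := by positivity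
  have h3 := ((h2.eventually (gt_mem_nhds (show (1 : ℝ) < 1 + 1 / (n + 4) by linarith))).and
    (h2.eventually (lt_mem_nhds (show (0 : ℝ) < 1 by norm_num)))).and
    (eventually_ge_atTop (2 * c + 2))
  obtain ⟨k, ⟨a1, a2⟩, hk⟩ := h3.exists
  rw [N2 k hk] at a1 a2
  unfold roughConst at a1 a2
  obtain ⟨D, ⟨D0, g, g1, -⟩, D1⟩ := exists_lt_of_csInf_lt (by
    by_contra e
    rw [Set.not_nonempty_iff_eq_empty.1 e, Real.sInf_empty] at a2
    exact lt_irrefl _ a2) a1
  obtain ⟨pos, hpos⟩ := grid_path hγ (k := k) (by omega)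
  refine ⟨fun x => pos (g x), fun x y hxy => ?_⟩
  rw [← hpos]
  obtain ⟨b1, b2⟩ := g1 x y
  rw [sub_le_iff_le_add, inv_mul_le_iff₀ D0] at b1
  generalize (netGraph G k (Set.range fun i : ℤ => γ (i * (k + 1)))).dist (g x) (g y) = e at *
  generalize G.dist x y = d at *
  generalize he : (1 : ℝ) / (n + 4) = ε at *
  have hεn : ε * (n + 4) = 1 := by rw [← he]; field_simp
  have hd : (d : ℝ) ≤ n := by exact_mod_cast hxy
  have d0 : (0 : ℝ) ≤ d := by positivity
  have e0 : (0 : ℝ) ≤ e := by positivity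
  have n0 : (0 : ℝ) ≤ n := by positivity
  have hε1 : ε ≤ 1 := by nlinarith
  have c1 : (e : ℝ) < d + 2 := by
    have : D * (d + D) ≤ (1 + ε) * (d + (1 + ε)) :=
      mul_le_mul D1.le (by linarith) (by positivity) (by linarith)
    nlinarith
  have c2 : (d : ℝ) < e + 2 := by
    have : D * (e + 1) ≤ (1 + ε) * (e + 1) := mul_le_mul_of_nonneg_right D1.le (by linarith)
    nlinarith
  have c3 : e < d + 2 := by exact_mod_cast c1
  have c4 : d < e + 2 := by exact_mod_cast c2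
  rw [abs_le]
  omega

end Down

theorem map_of_approx (o : V) (h : ∀ n : ℕ, ∃ φ : V → ℤ, ∀ x y, G.dist x y ≤ n →
    |(|φ x - φ y|) - (G.dist x y : ℤ)| ≤ 1) :
    ∃ f : V → ℤ, ∀ x y, |(|f x - f y|) - (G.dist x y : ℤ)| ≤ 1 := by
  choose φ hφ using h
  have big : ∀ m : ℕ, ∀ᶠ n : ℕ in (hyperfilter ℕ : Filter ℕ), m ≤ n := fun m =>
    Nat.hyperfilter_le_atTop (eventually_ge_atTop m)
  have h2 : ∀ x : V, ∃ a ∈ Set.Icc (-((G.dist x o : ℤ) + 1)) (G.dist x o + 1),
      ∀ᶠ n : ℕ in (hyperfilter ℕ : Filter ℕ), φ n x - φ n o = a := fun x => by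
    rw [← Ultrafilter.eventually_exists_mem_iff (Set.finite_Icc _ _)]
    filter_upwards [big (G.dist x o)] with n hn
    refine ⟨_, ?_, rfl⟩
    have := abs_le.1 (hφ n x o hn)
    exact abs_le.1 (by omega)
  choose f _ hf using h2
  refine ⟨f, fun x y => ?_⟩
  obtain ⟨n, a1, a2, a3⟩ := ((big (G.dist x y)).and ((hf x).and (hf y))).exists
  rw [← a2, ← a3, sub_sub_sub_cancel_right]
  exact hφ n x y a1

theorem classification [Infinite V] (hc : G.Connected) (hfin : ∀ v, (G.neighborSet v).Finite)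
    (ht : ∀ u v, ∃ φ : G ≃g G, φ u = v) :
    SubScaleInvariant G ↔ ∃ f : V → ℤ, ∀ x y, |(|f x - f y|) - (G.dist x y : ℤ)| ≤ 1 := by
  obtain ⟨o⟩ := hc.nonempty
  constructor
  · intro h
    obtain ⟨γ, c, h1, h2⟩ := (H18.ri_of_sub hc hfin ht h).near_line o
    exact map_of_approx o (approx h1 h2 hc hfin ht h)
  · rintro ⟨f, hf⟩
    obtain ⟨γ, hγ⟩ := H18.Geo.exists_line (X := H18.toGeo hc hfin ht) o
    exact sub_of_map hc hγ hf

end Pool.Agent.MP_6f70ff_gt.H42
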